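import Pool.Agent.W2helper7.FA.Int

/-!
# Finiteness without a branch point at infinity
-/

set_option autoImplicit false

namespace Pool.Agent.W2helper7.FA

open Polynomial Pool.Agent.W2helper6.HE

/-- polynomials of even degree with together at least five complex roots of odd multiplicity -/
theorem fin_even {κ : Type} [Fintype κ] (p : κ → ℚ[X]) (h0 : ∀ k, p k ≠ 0)
    (hev : ∀ k, Even (p k).natDegree) (S : Set ℂ) (h5 : 5 ≤ S.ncard)
    (hS : ∀ w ∈ S, ∃ k, Odd (((p k).map (algebraMap ℚ ℂ)).rootMultiplicity w)) :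
    {x : ℚ | ∀ k, IsSquare ((p k).eval x)}.Finite := by
  classical
  have hSf : S.Finite := Set.finite_of_ncard_pos (by omega)
  obtain ⟨z, hz⟩ : S.Nonempty := Set.nonempty_of_ncard_ne_zero (by omega)
  obtain ⟨k0, hk0⟩ := hS z hz
  have hint : IsIntegral ℚ z := by
    have h1 := (Polynomial.rootMultiplicity_pos'.1 hk0.pos).2
    have h2 : IsAlgebraic ℚ z := ⟨p k0, h0 k0, by
      rw [IsRoot.def, eval_map] at h1
      rw [aeval_def]
      exact h1⟩
    exact h2.isIntegral
  let L := IntermediateField.adjoin ℚ ({z} : Set ℂ)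
  have : FiniteDimensional ℚ L := IntermediateField.adjoin.finiteDimensional hint
  have : NumberField L := ⟨⟩
  let z' : L := ⟨z, IntermediateField.mem_adjoin_simple_self ℚ z⟩
  have hz' : algebraMap L ℂ z' = z := rfl
  have hcomp : (algebraMap L ℂ).comp (algebraMap ℚ L) = algebraMap ℚ ℂ := rfl
  have hmap : ∀ k, ((p k).map (algebraMap ℚ L)).map (algebraMap L ℂ) = (p k).map (algebraMap ℚ ℂ) := by
    intro k
    rw [Polynomial.map_map, hcomp]
  have hinj : Function.Injective (algebraMap L ℂ) := (algebraMap L ℂ).injective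
  have h := fin_M ℂ (fun k => (p k).map (algebraMap ℚ L)) z'
    (fun k => (Polynomial.map_ne_zero_iff (algebraMap ℚ L).injective).2 (h0 k)) (by
    refine ⟨k0, ?_⟩
    have e1 : ((p k0).map (algebraMap ℚ L)).rootMultiplicity z' =
        ((p k0).map (algebraMap ℚ ℂ)).rootMultiplicity z := by
      rw [Polynomial.eq_rootMultiplicity_map (f := algebraMap L ℂ) hinj, hmap, hz']
    have e2 : ((p k0).map (algebraMap ℚ ℂ)).rootMultiplicity z ≤ (p k0).natDegree := by
      have hne : (p k0).map (algebraMap ℚ ℂ) ≠ 0 :=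
        (Polynomial.map_ne_zero_iff (algebraMap ℚ ℂ).injective).2 (h0 k0)
      rw [← Polynomial.count_roots, ← Polynomial.natDegree_map (algebraMap ℚ ℂ) (p := p k0)]
      exact (Multiset.count_le_card _ _).trans (Polynomial.card_roots' _)
    rw [Polynomial.natDegree_map, e1]
    exact Nat.Even.sub_odd e2 (hev k0) hk0) (S \ {z}) (by
    have := Set.ncard_sdiff_singleton_add_one hz hSf
    omega) (by
    rintro w ⟨hw, hwz⟩
    obtain ⟨k, hk⟩ := hS w hw
    refine ⟨by rw [hz']; exact hwz, k, ?_⟩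
    rw [hmap]
    exact hk) {1}
  refine (h.preimage (f := algebraMap ℚ L) (algebraMap ℚ L).injective.injOn).subset ?_
  intro x hx k
  obtain ⟨y, hy⟩ := hx k
  obtain ⟨n, hn⟩ := hev k
  refine ⟨1, Finset.mem_singleton_self 1, algebraMap ℚ L y * (algebraMap ℚ L x - z') ^ n, ?_⟩
  have e1 : ((p k).map (algebraMap ℚ L)).eval (algebraMap ℚ L x) = algebraMap ℚ L ((p k).eval x) := by
    rw [eval_map, eval₂_at_apply]
  show ((p k).map (algebraMap ℚ L)).eval (algebraMap ℚ L x) * _ ^ ((p k).map (algebraMap ℚ L)).natDegree = _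
  rw [e1, Polynomial.natDegree_map, hy, hn, map_mul]
  ring

end Pool.Agent.W2helper7.FA
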