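import Pool.Agent.W2helper7.FA.Orb
import Pool.Agent.W2helper7.FA.Even

/-!
# Degree three, four branch points
-/

set_option autoImplicit false

namespace Pool.Agent.W2helper7.FA

open Polynomial Finset Pool.Agent.N449.SP

/-- the sextic `δ² v⁶ + β δ v³ + 1` -/
noncomputable def sx (δ β : ℚ) : ℚ[X] := C (δ ^ 2) * X ^ 6 + C (β * δ) * X ^ 3 + 1

lemma sx_deg {δ : ℚ} (hδ : δ ≠ 0) (β : ℚ) : (sx δ β).natDegree = 6 := by
  have h : δ ^ 2 ≠ 0 := pow_ne_zero _ hδ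
  unfold sx
  compute_degree!

lemma sx_eval (δ β v : ℚ) : (sx δ β).eval v = δ ^ 2 * v ^ 6 + β * δ * v ^ 3 + 1 := by
  unfold sx
  simp

lemma sx_sep {δ β : ℚ} (hδ : δ ≠ 0) (hβ : 4 - β ^ 2 ≠ 0) : (sx δ β).Separable := by
  have hd : derivative (sx δ β) = C (3 * δ) * (X ^ 2 * (C (2 * δ) * X ^ 3 + C β)) := by
    unfold sx
    simp only [derivative_add, derivative_mul, derivative_C, derivative_X_pow, derivative_one,
      zero_mul, zero_add, add_zero]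
    simp only [C_mul, C_pow, map_ofNat]
    push_cast
    simp only [map_ofNat]
    ring
  rw [Separable, hd]
  have hu : IsUnit (C (3 * δ) : ℚ[X]) := isUnit_C.2 (IsUnit.mk0 _ (mul_ne_zero three_ne_zero hδ))
  rw [isCoprime_mul_unit_left_right hu]
  apply IsCoprime.mul_right
  · apply IsCoprime.pow_right
    refine ⟨1, -(C (δ ^ 2) * X ^ 5 + C (β * δ) * X ^ 2), ?_⟩
    unfold sx
    ring
  · refine ⟨C (4 * (4 - β ^ 2)⁻¹), -(C ((4 - β ^ 2)⁻¹) * (C (2 * δ) * X ^ 3 + C β)), ?_⟩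
    have e : C (4 * (4 - β ^ 2)⁻¹) * sx δ β + -(C ((4 - β ^ 2)⁻¹) * (C (2 * δ) * X ^ 3 + C β)) *
        (C (2 * δ) * X ^ 3 + C β) = C ((4 - β ^ 2)⁻¹ * (4 - β ^ 2)) := by
      unfold sx
      simp only [C_mul, C_pow, C_sub, map_ofNat]
      ring
    rw [e, inv_mul_cancel₀ hβ, C_1]

theorem sextic_fin {δ β : ℚ} (hδ : δ ≠ 0) (hβ : 4 - β ^ 2 ≠ 0) :
    {v : ℚ | IsSquare (δ ^ 2 * v ^ 6 + β * δ * v ^ 3 + 1)}.Finite := by
  have hsep := sx_sep hδ hβ
  have hne : sx δ β ≠ 0 := hsep.ne_zero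
  have hcard := card_rootSet_eq_natDegree hsep (IsAlgClosed.splits ((sx δ β).map (algebraMap ℚ ℂ)))
  have hmne : (sx δ β).map (algebraMap ℚ ℂ) ≠ 0 :=
    (Polynomial.map_ne_zero_iff (algebraMap ℚ ℂ).injective).2 hne
  have h := fin_even (κ := Unit) (fun _ => sx δ β) (fun _ => hne)
    (fun _ => by rw [sx_deg hδ]; exact ⟨3, rfl⟩) ((sx δ β).rootSet ℂ) (by
      rw [← Nat.card_coe_set_eq, Nat.card_eq_fintype_card, hcard, sx_deg hδ]
      norm_num) (by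
    intro w hw
    refine ⟨(), ?_⟩
    have h2 := rootMultiplicity_le_one_of_separable (hsep.map (f := algebraMap ℚ ℂ)) w
    have hroot : ((sx δ β).map (algebraMap ℚ ℂ)).IsRoot w := by
      rw [mem_rootSet] at hw
      rw [IsRoot.def, eval_map, ← aeval_def]
      exact hw.2
    have h3 : 0 < ((sx δ β).map (algebraMap ℚ ℂ)).rootMultiplicity w :=
      (rootMultiplicity_pos hmne).2 hroot
    have h4 : ((sx δ β).map (algebraMap ℚ ℂ)).rootMultiplicity w = 1 := by omega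
    rw [h4]
    exact odd_one)
  refine h.subset ?_
  intro v hv _
  rw [sx_eval]
  exact hv

lemma quad_fin (b c : ℚ) : {t : ℚ | t ^ 2 - b * t + c = 0}.Finite := by
  have hne : (X ^ 2 - C b * X + C c : ℚ[X]) ≠ 0 := by
    intro h
    have h1 : (X ^ 2 - C b * X + C c : ℚ[X]).natDegree = 2 := by compute_degree!
    rw [h, natDegree_zero] at h1
    exact absurd h1 (by norm_num)
  refine (finite_setOfPred_isRoot hne).subset ?_
  intro t ht
  have ht : t ^ 2 - b * t + c = 0 := ht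
  show (X ^ 2 - C b * X + C c : ℚ[X]).IsRoot t
  rw [IsRoot.def]
  simp only [eval_add, eval_sub, eval_pow, eval_X, eval_mul, eval_C]
  exact ht

/-- for a fixed cross ratio -/
theorem cub_fin (S : Finset ℕ) {l : ℚ} (h0 : l ≠ 0) (h1 : l ≠ 1) :
    {t : ℚ | Sel S 3 t ∧ Sel S 3 (t - 1) ∧ Sel S 3 (t - l)}.Finite := by
  have hβ : 4 - (2 - 4 * l) ^ 2 ≠ 0 := by
    have e : 4 - (2 - 4 * l) ^ 2 = 16 * (l * (1 - l)) := by ring
    rw [e]
    exact mul_ne_zero (by norm_num) (mul_ne_zero h0 (sub_ne_zero.2 (Ne.symm h1)))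
  have hfin : (⋃ δ ∈ {δ : ℚ | δ ∈ TT S 3 ∧ δ ≠ 0},
      ⋃ v ∈ {v : ℚ | IsSquare (δ ^ 2 * v ^ 6 + (2 - 4 * l) * δ * v ^ 3 + 1)},
        {t : ℚ | t ^ 2 - (1 + δ * v ^ 3) * t + δ * v ^ 3 * l = 0}).Finite := by
    refine Set.Finite.biUnion ((TT S 3).finite_toSet.subset fun δ h => h.1) fun δ hδ => ?_
    exact Set.Finite.biUnion (sextic_fin hδ.2 hβ) fun v _ => quad_fin _ _
  refine hfin.subset ?_
  rintro t ⟨ht0, ht1, htl⟩
  have hS := (ht0.mul ht1).div htl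
  obtain ⟨δ, hδ, v, hv⟩ := hS.class (by norm_num)
  have hδ0 : δ ≠ 0 := by
    rintro rfl
    rw [zero_mul] at hv
    exact hS.1 hv
  rw [div_eq_iff htl.1] at hv
  refine Set.mem_biUnion (show δ ∈ {δ : ℚ | δ ∈ TT S 3 ∧ δ ≠ 0} from ⟨hδ, hδ0⟩)
    (Set.mem_biUnion (x := v) ?_ ?_)
  · refine ⟨2 * t - 1 - δ * v ^ 3, ?_⟩
    linear_combination -4 * hv
  · show t ^ 2 - (1 + δ * v ^ 3) * t + δ * v ^ 3 * l = 0
    linear_combination hv

/-- **Degree three, four branch points.** -/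
theorem core4 (S : Finset ℕ) : Core S 3 4 := by
  classical
  intro _
  have hU : {x : ℚ | (x ∈ Pm (Gam S) ∧ 1 - x ∈ Pm (Gam S))}.Finite := unit_two S
  have hfin : (⋃ l ∈ {x : ℚ | (x ∈ Pm (Gam S) ∧ 1 - x ∈ Pm (Gam S))},
      {t : ℚ | Sel S 3 t ∧ Sel S 3 (t - 1) ∧ Sel S 3 (t - l)}).Finite :=
    hU.biUnion fun l hl => cub_fin S (pm_ne hl.1) (fun h => pm_ne hl.2 (by rw [h, sub_self]))
  obtain ⟨T, hT⟩ : ∃ T : Finset ℚ, (T : Set ℚ) = _ := ⟨hfin.toFinset, hfin.coe_toFinset⟩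
  refine ⟨T, fun P hD u w hL hsel => ?_⟩
  have hdt : ∀ i j, i ≠ j → Sel S 3 (dt (P i) (P j) : ℚ) := fun i j h => Sel.of_sm (hD i j h)
  have q : ∀ i j, i ≠ j → (dt (P i) (P j) : ℚ) ≠ 0 := fun i j h => by exact_mod_cast (hD i j h).1
  have hL1 : (lf (P 1) u w : ℚ) ≠ 0 := by exact_mod_cast hL 1
  have q02 := q 0 2 (by decide)
  have q13 := q 1 3 (by decide)
  rw [← Finset.mem_coe, hT]
  show tt P 0 1 2 u w ∈ _
  refine Set.mem_biUnion (x := (dt (P 0) (P 3) * dt (P 1) (P 2) : ℚ) /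
    (dt (P 1) (P 3) * dt (P 0) (P 2))) ⟨?_, ?_⟩ ⟨?_, ?_, ?_⟩
  · exact pm_div (pm_mul (pm_int (hD 0 3 (by decide))) (pm_int (hD 1 2 (by decide))))
      (pm_mul (pm_int (hD 1 3 (by decide))) (pm_int (hD 0 2 (by decide))))
  · have e : 1 - (dt (P 0) (P 3) * dt (P 1) (P 2) : ℚ) / (dt (P 1) (P 3) * dt (P 0) (P 2)) =
        (dt (P 0) (P 1) * dt (P 2) (P 3) : ℚ) / (dt (P 1) (P 3) * dt (P 0) (P 2)) := by
      rw [eq_div_iff (mul_ne_zero q13 q02), sub_mul, div_mul_cancel₀ _ (mul_ne_zero q13 q02)]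
      unfold dt
      push_cast
      ring
    rw [e]
    exact pm_div (pm_mul (pm_int (hD 0 1 (by decide))) (pm_int (hD 2 3 (by decide))))
      (pm_mul (pm_int (hD 1 3 (by decide))) (pm_int (hD 0 2 (by decide))))
  · exact ((hsel 0).mul (hdt 1 2 (by decide))).div ((hsel 1).mul (hdt 0 2 (by decide)))
  · have e : tt P 0 1 2 u w - 1 = -((dt (P 0) (P 1) * lf (P 2) u w : ℚ) /
        (lf (P 1) u w * dt (P 0) (P 2))) := by
      unfold tt
      rw [← neg_div, eq_div_iff (mul_ne_zero hL1 q02), sub_mul,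
        div_mul_cancel₀ _ (mul_ne_zero hL1 q02)]
      unfold lf dt
      push_cast
      ring
    rw [e]
    exact (((hdt 0 1 (by decide)).mul (hsel 2)).div ((hsel 1).mul (hdt 0 2 (by decide)))).neg
  · have e : tt P 0 1 2 u w - (dt (P 0) (P 3) * dt (P 1) (P 2) : ℚ) /
        (dt (P 1) (P 3) * dt (P 0) (P 2)) =
        -((dt (P 1) (P 2) * dt (P 0) (P 1) * lf (P 3) u w : ℚ) /
          (lf (P 1) u w * dt (P 0) (P 2) * dt (P 1) (P 3))) := by
      unfold tt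
      rw [div_sub_div _ _ (mul_ne_zero hL1 q02) (mul_ne_zero q13 q02), ← neg_div,
        div_eq_div_iff (mul_ne_zero (mul_ne_zero hL1 q02) (mul_ne_zero q13 q02))
          (mul_ne_zero (mul_ne_zero hL1 q02) q13)]
      unfold lf dt
      push_cast
      ring
    rw [e]
    exact ((((hdt 1 2 (by decide)).mul (hdt 0 1 (by decide))).mul (hsel 3)).div
      (((hsel 1).mul (hdt 0 2 (by decide))).mul (hdt 1 3 (by decide)))).neg

end Pool.Agent.W2helper7.FA
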