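import Pool.Agent.W2helper7.FA.Orb
import Pool.Agent.W2helper83.BT.Final

/-!
# Degree at least four, three branch points
-/

set_option autoImplicit false

namespace Pool.Agent.W2helper7.FA

open Polynomial Finset Pool.Agent.N449.SP Pool.Agent.W2helper83.BT

theorem fermat_fin {N : ℕ} (hN : 4 ≤ N) (T : Finset ℚ) :
    {x : ℚ | (∃ δ ∈ T, ∃ y, x = δ * y ^ N) ∧ ∃ δ ∈ T, ∃ y, 1 - x = δ * y ^ N}.Finite := by
  obtain ⟨L, _, _, _, hL⟩ := roots' ℚ T N (by omega)
  have hF := (hF N hN L).image (fun p => p.1 ^ N)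
  refine (hF.preimage (f := algebraMap ℚ L) (algebraMap ℚ L).injective.injOn).subset ?_
  rintro x ⟨⟨δ, hδ, y, hy⟩, δ', hδ', y', hy'⟩
  obtain ⟨θ, hθ⟩ := hL δ hδ
  obtain ⟨θ', hθ'⟩ := hL δ' hδ'
  refine ⟨(θ * algebraMap ℚ L y, θ' * algebraMap ℚ L y'), ?_, ?_⟩
  · show (θ * algebraMap ℚ L y) ^ N + (θ' * algebraMap ℚ L y') ^ N = 1
    rw [mul_pow, mul_pow, hθ, hθ', ← map_pow, ← map_pow, ← map_mul, ← map_mul, ← map_add, ← hy, ← hy',
      add_sub_cancel, map_one]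
  · show (θ * algebraMap ℚ L y) ^ N = algebraMap ℚ L x
    rw [mul_pow, hθ, ← map_pow, ← map_mul, ← hy]

/-- **Degree at least four, three branch points.** -/
theorem core3 (S : Finset ℕ) {N : ℕ} (hN : 4 ≤ N) : Core S N 3 := by
  classical
  intro _
  obtain ⟨T, hT⟩ : ∃ T : Finset ℚ, (T : Set ℚ) = _ :=
    ⟨(fermat_fin hN (TT S N)).toFinset, (fermat_fin hN (TT S N)).coe_toFinset⟩
  refine ⟨T, fun P hD u w hL hsel => ?_⟩
  have hN0 : 0 < N := by omega
  have h02 := (hD 0 2 (by decide)).1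
  have hdt : ∀ i j, i ≠ j → Sel S N (dt (P i) (P j) : ℚ) := fun i j h => Sel.of_sm (hD i j h)
  have q02 : (dt (P 0) (P 2) : ℚ) ≠ 0 := by exact_mod_cast h02
  have hL1 : (lf (P 1) u w : ℚ) ≠ 0 := by exact_mod_cast hL 1
  rw [← Finset.mem_coe, hT]
  show tt P 0 1 2 u w ∈ _
  constructor
  · have hS : Sel S N (tt P 0 1 2 u w) :=
      ((hsel 0).mul (hdt 1 2 (by decide))).div ((hsel 1).mul (hdt 0 2 (by decide)))
    exact hS.class hN0
  · have hS : Sel S N (1 - tt P 0 1 2 u w) := by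
      have e : 1 - tt P 0 1 2 u w = (dt (P 0) (P 1) * lf (P 2) u w : ℚ) /
          (lf (P 1) u w * dt (P 0) (P 2)) := by
        unfold tt
        rw [eq_div_iff (mul_ne_zero hL1 q02), sub_mul, div_mul_cancel₀ _ (mul_ne_zero hL1 q02)]
        unfold lf dt
        push_cast
        ring
      rw [e]
      exact ((hdt 0 1 (by decide)).mul (hsel 2)).div ((hsel 1).mul (hdt 0 2 (by decide)))
    exact hS.class hN0

end Pool.Agent.W2helper7.FA
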