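import Pool.Agent.W2helper7.FA.Int
import Pool.Agent.W2helper7.HT.Four
import Pool.Agent.W2helper7.CC.Sees

/-!
# The rational numbers of constant type are finite in number, by Mordell
-/

set_option autoImplicit false

namespace Pool.Agent.W2helper7.FA

open Polynomial Pool.Agent.W2helper6.HE

section HT

variable {K : Type} [Fintype K] {f : K → ℤ[X]}

/-- two totally ramified points: the type of `(0, 0)` and the type of infinity -/
theorem fin_HT (h0 : ∀ k, (f k).coeff 0 ≠ 0) (hodd : ∃ k, Odd (f k).natDegree)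
    (h4 : 4 ≤ (oddRoots f).ncard) :
    {s : ℚ | s ≠ 0 ∧ ((∀ k, IsSquare (((f k).leadingCoeff : ℚ) * s ^ (f k).natDegree * val (f k) s)) ∨
      (∀ k, IsSquare (((f k).coeff 0 : ℚ) * val (f k) s)))}.Finite := by
  have hf : ∀ k, f k ≠ 0 := fun k h => h0 k (by rw [h, coeff_zero])
  have hl : ∀ k, ((f k).leadingCoeff : ℚ) ≠ 0 := fun k => by
    have := leadingCoeff_ne_zero.2 (hf k)
    exact_mod_cast this
  have e0 : ∀ k, (f k).eval 0 = (f k).coeff 0 := fun k => (coeff_zero_eq_eval_zero _).symm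
  have h1 := fin_int (c := fun k => ((f k).coeff 0 : ℚ)) (q := f) (fun k => by
    have := h0 k
    exact_mod_cast this) hf hodd (oddRoots f) h4 subset_rfl
  have h2 := fin_int_M (c := fun k => ((f k).leadingCoeff : ℚ)) (q := f) 0 hl hf (by
    obtain ⟨k, hk⟩ := hodd
    exact ⟨k, hk, by rw [e0]; exact h0 k⟩) (oddRoots f) h4 subset_rfl (by
    rintro ⟨k, hk⟩
    have h3 := (Polynomial.rootMultiplicity_pos'.1 hk.pos).2
    rw [IsRoot.def, Int.cast_zero, ← coeff_zero_eq_eval_zero, coeff_map] at h3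
    apply h0 k
    have : ((f k).coeff 0 : ℂ) = 0 := h3
    exact_mod_cast this)
  refine (h2.union h1).subset ?_
  rintro s ⟨-, h | h⟩
  · left
    intro k
    have h3 := h k
    rw [Int.cast_zero, sub_zero]
    rw [show ((f k).leadingCoeff : ℚ) * val (f k) s * s ^ (f k).natDegree =
      ((f k).leadingCoeff : ℚ) * s ^ (f k).natDegree * val (f k) s by ring]
    exact h3
  · right
    exact h

end HT

section CC

variable {ι K : Type} [Fintype ι] [Fintype K] {a : ι → ℤ} {g : K → ℤ[X]}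

lemma root_lin (a : ℤ) : Odd (((X - C a : ℤ[X]).map (Int.castRingHom ℂ)).rootMultiplicity (a : ℂ)) := by
  have e1 : (X - C a : ℤ[X]).map (Int.castRingHom ℂ) = X - C (a : ℂ) := by
    rw [Polynomial.map_sub, Polynomial.map_X, Polynomial.map_C]
    rfl
  rw [e1, rootMultiplicity_X_sub_C_self]
  exact odd_one

lemma not_root {q : ℤ[X]} {z : ℤ} (h : q.eval z ≠ 0) :
    ¬ Odd ((q.map (Int.castRingHom ℂ)).rootMultiplicity (z : ℂ)) := by
  intro hk
  have h3 := (Polynomial.rootMultiplicity_pos'.1 hk.pos).2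
  rw [IsRoot.def, eval_map] at h3
  have h2 := Polynomial.eval₂_at_apply (p := q) (Int.castRingHom ℂ) z
  rw [eq_intCast, eq_intCast] at h2
  rw [h2] at h3
  exact h (by exact_mod_cast h3)

/-- the branch points of the curves of constant type of `a_i` -/
def SS (a : ι → ℤ) (g : K → ℤ[X]) (i : ι) : Set ℂ :=
  (fun j => (a j : ℂ)) '' {j | j ≠ i} ∪ oddRoots g

lemma SS_card (ha : Function.Injective a) (hg : ∀ k, g k ≠ 0) (hne : ∀ i k, (g k).eval (a i) ≠ 0)
    (i : ι) : (SS a g i).ncard + 1 = Fintype.card ι + (oddRoots g).ncard := by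
  classical
  unfold SS
  rw [Set.ncard_union_eq _ (Set.toFinite _) (oddRoots_finite hg)]
  · have hinj : Function.Injective (fun j => (a j : ℂ)) := by
      intro j l h
      apply ha
      have h1 : (a j : ℂ) = a l := h
      exact_mod_cast h1
    rw [Set.ncard_image_of_injective _ hinj]
    have h1 : {j : ι | j ≠ i} = ((Finset.univ.erase i : Finset ι) : Set ι) := by
      ext j
      simp
    rw [h1, Set.ncard_coe_finset, Finset.card_erase_of_mem (Finset.mem_univ i), Finset.card_univ]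
    have : 0 < Fintype.card ι := Fintype.card_pos_iff.2 ⟨i⟩
    omega
  · rw [Set.disjoint_left]
    rintro _ ⟨j, -, rfl⟩ ⟨k, hk⟩
    exact not_root (hne j k) hk

omit [Fintype ι] [Fintype K] in
lemma SS_self (ha : Function.Injective a) (hne : ∀ i k, (g k).eval (a i) ≠ 0) (i : ι) :
    (a i : ℂ) ∉ SS a g i := by
  rintro (⟨j, hj, h⟩ | ⟨k, hk⟩)
  · apply hj
    apply ha
    have h1 : (a j : ℂ) = a i := h
    exact_mod_cast h1
  · exact not_root (hne i k) hk

/-- the type of `a_i` -/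
theorem fin_CF (ha : Function.Injective a) (hg : ∀ k, g k ≠ 0) (hne : ∀ i k, (g k).eval (a i) ≠ 0)
    (hodd : ∃ k, Odd (g k).natDegree) (h5 : 5 ≤ Fintype.card ι + (oddRoots g).ncard) (i : ι) :
    {x : ℚ | (∀ j, j ≠ i → IsSquare ((x - a j) * ((a i - a j : ℤ) : ℚ))) ∧
      ∀ k, IsSquare (val (g k) x * (((g k).eval (a i) : ℤ) : ℚ))}.Finite := by
  classical
  have hcard := SS_card ha hg hne i
  obtain ⟨q, hq⟩ : ∃ q : ι ⊕ K → ℤ[X], q = Sum.elim (fun j => if j = i then 1 else X - C (a j)) g :=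
    ⟨_, rfl⟩
  obtain ⟨c, hc⟩ : ∃ c : ι ⊕ K → ℚ, c = Sum.elim
      (fun j => if j = i then 1 else ((a i - a j : ℤ) : ℚ)) (fun k => (((g k).eval (a i) : ℤ) : ℚ)) :=
    ⟨_, rfl⟩
  have hc0 : ∀ k, c k ≠ 0 := by
    intro k
    rw [hc]
    rcases k with j | k
    · show (if j = i then 1 else ((a i - a j : ℤ) : ℚ)) ≠ 0
      split_ifs with h
      · exact one_ne_zero
      · have : a i - a j ≠ 0 := sub_ne_zero.2 fun h' => h (ha h').symm
        exact_mod_cast this
    · have := hne i k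
      show (((g k).eval (a i) : ℤ) : ℚ) ≠ 0
      exact_mod_cast this
  have hq0 : ∀ k, q k ≠ 0 := by
    intro k
    rw [hq]
    rcases k with j | k
    · show (if j = i then 1 else X - C (a j) : ℤ[X]) ≠ 0
      split_ifs with h
      · exact one_ne_zero
      · exact X_sub_C_ne_zero _
    · exact hg k
  have h := fin_int (c := c) (q := q) hc0 hq0 (by
    obtain ⟨k, hk⟩ := hodd
    exact ⟨Sum.inr k, by rw [hq]; exact hk⟩) (SS a g i) (by omega) (by
    rintro w (⟨j, hj, rfl⟩ | ⟨k, hk⟩)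
    · refine ⟨Sum.inl j, ?_⟩
      have e1 : q (Sum.inl j) = X - C (a j) := by
        rw [hq]
        show (if j = i then 1 else X - C (a j) : ℤ[X]) = _
        rw [if_neg hj]
      rw [e1]
      exact root_lin (a j)
    · refine ⟨Sum.inr k, ?_⟩
      have e1 : q (Sum.inr k) = g k := by rw [hq]; rfl
      rw [e1]
      exact hk)
  refine h.subset ?_
  rintro x ⟨h1, h2⟩ k
  rcases k with j | k
  · by_cases hj : j = i
    · have e1 : q (Sum.inl j) = 1 := by
        rw [hq]
        show (if j = i then 1 else X - C (a j) : ℤ[X]) = _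
        rw [if_pos hj]
      have e2 : c (Sum.inl j) = 1 := by
        rw [hc]
        show (if j = i then 1 else ((a i - a j : ℤ) : ℚ)) = _
        rw [if_pos hj]
      rw [e1, e2]
      unfold val
      rw [eval₂_one, one_mul]
      exact ⟨1, (one_mul 1).symm⟩
    · have e1 : q (Sum.inl j) = X - C (a j) := by
        rw [hq]
        show (if j = i then 1 else X - C (a j) : ℤ[X]) = _
        rw [if_neg hj]
      have e2 : c (Sum.inl j) = ((a i - a j : ℤ) : ℚ) := by
        rw [hc]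
        show (if j = i then 1 else ((a i - a j : ℤ) : ℚ)) = _
        rw [if_neg hj]
      rw [e1, e2]
      unfold val
      rw [eval₂_sub, eval₂_X, eval₂_C, eq_intCast, mul_comm]
      exact h1 j hj
  · have e1 : q (Sum.inr k) = g k := by rw [hq]; rfl
    have e2 : c (Sum.inr k) = (((g k).eval (a i) : ℤ) : ℚ) := by rw [hc]; rfl
    rw [e1, e2, mul_comm]
    exact h2 k

/-- the type of infinity -/
theorem fin_CI (i : ι) (ha : Function.Injective a) (hg : ∀ k, g k ≠ 0)
    (hne : ∀ i k, (g k).eval (a i) ≠ 0) (hodd : ∃ k, Odd (g k).natDegree)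
    (h5 : 5 ≤ Fintype.card ι + (oddRoots g).ncard) :
    {x : ℚ | (∀ i j, IsSquare ((x - a i) * (x - a j))) ∧
      ∀ k i, IsSquare (((g k).leadingCoeff : ℚ) * val (g k) x * (x - a i) ^ (g k).natDegree)}.Finite := by
  classical
  have hcard := SS_card ha hg hne i
  obtain ⟨q, hq⟩ : ∃ q : ι ⊕ K → ℤ[X], q = Sum.elim (fun j => X - C (a j)) g :=
    ⟨_, rfl⟩
  obtain ⟨c, hc⟩ : ∃ c : ι ⊕ K → ℚ, c = Sum.elim
      (fun j => 1) (fun k => ((g k).leadingCoeff : ℚ)) :=
    ⟨_, rfl⟩
  have hc0 : ∀ k, c k ≠ 0 := by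
    intro k
    rw [hc]
    rcases k with j | k
    · exact one_ne_zero
    · have := leadingCoeff_ne_zero.2 (hg k)
      show ((g k).leadingCoeff : ℚ) ≠ 0
      exact_mod_cast this
  have hq0 : ∀ k, q k ≠ 0 := by
    intro k
    rw [hq]
    rcases k with j | k
    · exact X_sub_C_ne_zero _
    · exact hg k
  have e1 : ∀ j, q (Sum.inl j) = X - C (a j) := fun j => by rw [hq]; rfl
  have e2 : ∀ k, q (Sum.inr k) = g k := fun k => by rw [hq]; rfl
  have e3 : ∀ j, c (Sum.inl j) = 1 := fun j => by rw [hc]; rfl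
  have e4 : ∀ k, c (Sum.inr k) = ((g k).leadingCoeff : ℚ) := fun k => by rw [hc]; rfl
  have h := fin_int_M (c := c) (q := q) (a i) hc0 hq0 (by
    obtain ⟨k, hk⟩ := hodd
    exact ⟨Sum.inr k, by rw [e2]; exact hk, by rw [e2]; exact hne i k⟩) (SS a g i) (by omega) (by
    rintro w (⟨j, hj, rfl⟩ | ⟨k, hk⟩)
    · refine ⟨Sum.inl j, ?_⟩
      rw [e1]
      exact root_lin (a j)
    · refine ⟨Sum.inr k, ?_⟩
      rw [e2]
      exact hk) (SS_self ha hne i)
  refine h.subset ?_
  rintro x ⟨h1, h2⟩ k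
  rcases k with j | k
  · rw [e1, e3, natDegree_X_sub_C]
    unfold val
    rw [eval₂_sub, eval₂_X, eval₂_C, eq_intCast, one_mul, pow_one]
    exact h1 j i
  · rw [e2, e4]
    exact h2 k i

end CC

end Pool.Agent.W2helper7.FA
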