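import Pool.Agent.W2helper7.FA.Even
import Pool.Agent.Y488.TM.Cor

/-!
# Quadratic twists: the rational numbers of constant type are finite in number, by Mordell
-/

set_option autoImplicit false

namespace Pool.Agent.W2helper7.FA

open Polynomial Finset Pool.Agent.W262.TW Pool.Agent.Y488.TM

section

variable {F : Type*} [Field F]

lemma hom_eval (f : ℤ[X]) (x w : ℚ) (hw : w ≠ 0) :
    hom f x w = w ^ f.natDegree * (f.map (Int.castRingHom ℚ)).eval (x / w) := by
  unfold hom
  rw [eval_map, eval₂_eq_sum_range, mul_sum]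
  refine sum_congr rfl fun i hi => ?_
  have hi' : i ≤ f.natDegree := by
    have := mem_range.1 hi
    omega
  rw [div_pow, eq_intCast]
  have h1 : w ^ f.natDegree = w ^ i * w ^ (f.natDegree - i) := by
    rw [← pow_add]
    congr 1
    omega
  have hwi : w ^ i ≠ 0 := pow_ne_zero _ hw
  rw [h1]
  field_simp

lemma coprime_of {p q : F[X]} (hp : Irreducible p) (hq : Irreducible q) (h : ¬ Associated p q) :
    IsCoprime p q := by
  rw [hp.coprime_iff_not_dvd]
  exact fun h1 => h (hp.associated_of_dvd hq h1)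

end

variable {K : Type} [Fintype K] [DecidableEq K] {f : K → ℤ[X]}

/-- the polynomials of the constant type of `i` -/
noncomputable def pT (f : K → ℤ[X]) (i : K) (T : Finset K) : ℚ[X] :=
  ∏ k ∈ T, (C (hom (f k) (-((f i).coeff 0 : ℚ)) ((f i).coeff 1 : ℚ)) * (f k).map (Int.castRingHom ℚ))

omit [Fintype K] [DecidableEq K] in
lemma v_ne (irr : ∀ k, Irreducible ((f k).map (Int.castRingHom ℚ))) (ass : ∀ k l, k ≠ l →
    ¬ Associated ((f k).map (Int.castRingHom ℚ)) ((f l).map (Int.castRingHom ℚ))) {i k : K}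
    (hi : (f i).natDegree = 1) (hk : k ≠ i) :
    hom (f k) (-((f i).coeff 0 : ℚ)) ((f i).coeff 1 : ℚ) ≠ 0 := by
  have h1 : (f i).coeff 1 ≠ 0 := by
    have h2 : f i ≠ 0 := by
      intro h3
      rw [h3, natDegree_zero] at hi
      exact zero_ne_one hi
    have := leadingCoeff_ne_zero.2 h2
    rwa [leadingCoeff, hi] at this
  have h1' : ((f i).coeff 1 : ℚ) ≠ 0 := by exact_mod_cast h1
  have e : ∀ l, hom (f l) (-((f i).coeff 0 : ℚ)) ((f i).coeff 1 : ℚ) = 0 →
      Associated (X - C (-((f i).coeff 0 : ℚ) / (f i).coeff 1)) ((f l).map (Int.castRingHom ℚ)) := by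
    intro l hl
    rw [hom_eval _ _ _ h1'] at hl
    have h2 := (mul_eq_zero.1 hl).resolve_left (pow_ne_zero _ h1')
    exact (irreducible_X_sub_C _).associated_of_dvd (irr l) (dvd_iff_isRoot.2 h2)
  intro h
  apply ass k i hk
  refine (e k h).symm.trans (e i ?_)
  unfold hom
  rw [hi, sum_range_succ, sum_range_one]
  simp
  ring

omit [Fintype K] [DecidableEq K] in
lemma pT_ne (irr : ∀ k, Irreducible ((f k).map (Int.castRingHom ℚ))) (ass : ∀ k l, k ≠ l →
    ¬ Associated ((f k).map (Int.castRingHom ℚ)) ((f l).map (Int.castRingHom ℚ))) {i : K}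
    (hi : (f i).natDegree = 1) {T : Finset K} (hT : i ∉ T) : pT f i T ≠ 0 := by
  unfold pT
  rw [prod_ne_zero_iff]
  intro k hk
  have hki : k ≠ i := fun h => hT (h ▸ hk)
  exact mul_ne_zero (C_ne_zero.2 (v_ne irr ass hi hki)) (irr k).ne_zero

omit [Fintype K] [DecidableEq K] in
lemma pT_deg (irr : ∀ k, Irreducible ((f k).map (Int.castRingHom ℚ))) (ass : ∀ k l, k ≠ l →
    ¬ Associated ((f k).map (Int.castRingHom ℚ)) ((f l).map (Int.castRingHom ℚ))) {i : K}
    (hi : (f i).natDegree = 1) {T : Finset K} (hT : i ∉ T) :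
    (pT f i T).natDegree = ∑ k ∈ T, (f k).natDegree := by
  unfold pT
  rw [natDegree_prod]
  · refine sum_congr rfl fun k hk => ?_
    have hki : k ≠ i := fun h => hT (h ▸ hk)
    rw [natDegree_C_mul (v_ne irr ass hi hki),
      natDegree_map_eq_of_injective (RingHom.injective_int _)]
  · intro k hk
    have hki : k ≠ i := fun h => hT (h ▸ hk)
    exact mul_ne_zero (C_ne_zero.2 (v_ne irr ass hi hki)) (irr k).ne_zero

omit [Fintype K] [DecidableEq K] in
lemma pT_eval (i : K) (T : Finset K) (t : ℚ) : (pT f i T).eval t = ∏ k ∈ T, (hom (f k) t 1 *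
    hom (f k) (-((f i).coeff 0 : ℚ)) ((f i).coeff 1 : ℚ)) := by
  unfold pT
  rw [eval_prod]
  refine prod_congr rfl fun k _ => ?_
  rw [eval_mul, eval_C, hom_eval (f k) t 1 one_ne_zero, one_pow, one_mul, div_one, mul_comm]

/-- over the complex numbers -/
noncomputable def fC (f : K → ℤ[X]) (k : K) : ℂ[X] :=
  ((f k).map (Int.castRingHom ℚ)).map (algebraMap ℚ ℂ)

omit [Fintype K] [DecidableEq K] in
lemma mult_pT (irr : ∀ k, Irreducible ((f k).map (Int.castRingHom ℚ))) (ass : ∀ k l, k ≠ l →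
    ¬ Associated ((f k).map (Int.castRingHom ℚ)) ((f l).map (Int.castRingHom ℚ))) {i k : K}
    (hi : (f i).natDegree = 1) {T : Finset K} (hT : i ∉ T) (hk : k ∈ T) {w : ℂ}
    (hw : (fC f k).IsRoot w) : ((pT f i T).map (algebraMap ℚ ℂ)).rootMultiplicity w = 1 := by
  classical
  have hne : ∀ l, fC f l ≠ 0 := fun l =>
    (Polynomial.map_ne_zero_iff (algebraMap ℚ ℂ).injective).2 (irr l).ne_zero
  have hone : (fC f k).rootMultiplicity w = 1 := by
    have h1 : (fC f k).Separable := (irr k).separable.map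
    have h2 := rootMultiplicity_le_one_of_separable h1 w
    have h3 : 0 < (fC f k).rootMultiplicity w := (rootMultiplicity_pos (hne k)).2 hw
    omega
  have hrest : ∀ U : Finset K, i ∉ U → k ∉ U →
      ((pT f i U).map (algebraMap ℚ ℂ)).rootMultiplicity w = 0 := by
    intro U hU hkU
    apply rootMultiplicity_eq_zero
    unfold pT
    rw [Polynomial.map_prod, IsRoot.def, eval_prod, prod_eq_zero_iff]
    rintro ⟨l, hl, h0⟩
    have hli : l ≠ i := fun h => hU (h ▸ hl)
    have hlk : l ≠ k := fun h => hkU (h ▸ hl)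
    rw [Polynomial.map_mul, eval_mul, map_C, eval_C] at h0
    rcases mul_eq_zero.1 h0 with h0 | h0
    · rw [map_eq_zero] at h0
      exact v_ne irr ass hi hli h0
    · obtain ⟨u, v, huv⟩ := (coprime_of (irr l) (irr k) (ass l k hlk)).map
        (Polynomial.mapRingHom (algebraMap ℚ ℂ))
      have h4 := congrArg (Polynomial.eval w) huv
      rw [eval_add, eval_mul, eval_mul, coe_mapRingHom] at h4
      have hw' : (((f k).map (Int.castRingHom ℚ)).map (algebraMap ℚ ℂ)).eval w = 0 := hw
      rw [h0, hw', mul_zero, mul_zero, add_zero, eval_one] at h4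
      exact zero_ne_one h4
  have hTk : pT f i T = C (hom (f k) (-((f i).coeff 0 : ℚ)) ((f i).coeff 1 : ℚ)) *
      (f k).map (Int.castRingHom ℚ) * pT f i (T.erase k) := by
    unfold pT
    exact (mul_prod_erase T _ hk).symm
  have hki : k ≠ i := fun h => hT (h ▸ hk)
  have hU : i ∉ T.erase k := fun h => hT (mem_of_mem_erase h)
  have hv : algebraMap ℚ ℂ (hom (f k) (-((f i).coeff 0 : ℚ)) ((f i).coeff 1 : ℚ)) ≠ 0 := by
    rw [Ne, map_eq_zero]
    exact v_ne irr ass hi hki
  have hne2 : (pT f i (T.erase k)).map (algebraMap ℚ ℂ) ≠ 0 :=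
    (Polynomial.map_ne_zero_iff (algebraMap ℚ ℂ).injective).2 (pT_ne irr ass hi hU)
  rw [hTk, Polynomial.map_mul, Polynomial.map_mul, map_C]
  have hne3 : C (algebraMap ℚ ℂ (hom (f k) (-((f i).coeff 0 : ℚ)) ((f i).coeff 1 : ℚ))) *
      fC f k ≠ 0 := mul_ne_zero (C_ne_zero.2 hv) (hne k)
  have e1 : rootMultiplicity w (C (algebraMap ℚ ℂ (hom (f k) (-((f i).coeff 0 : ℚ))
      ((f i).coeff 1 : ℚ))) * fC f k * (pT f i (T.erase k)).map (algebraMap ℚ ℂ)) = 1 := by
    rw [rootMultiplicity_mul (mul_ne_zero hne3 hne2), mult_C hv (hne k), hone,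
      hrest _ hU (notMem_erase k T)]
  exact e1

/-- the type of a linear factor -/
theorem fin_TM (irr : ∀ k, Irreducible ((f k).map (Int.castRingHom ℚ))) (ass : ∀ k l, k ≠ l →
    ¬ Associated ((f k).map (Int.castRingHom ℚ)) ((f l).map (Int.castRingHom ℚ)))
    (four : 4 ≤ (Od f).card) (h6 : 6 ≤ ∑ k, (f k).natDegree) :
    {t : ℚ | (∀ k, hom (f k) t 1 ≠ 0) ∧ ConstQ f t 1}.Finite := by
  have key : ∀ i, (f i).natDegree = 1 → {t : ℚ | ∀ T : Finset K, i ∉ T →
      Even (∑ k ∈ T, (f k).natDegree) → IsSquare (∏ k ∈ T, (hom (f k) t 1 *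
        hom (f k) (-((f i).coeff 0 : ℚ)) ((f i).coeff 1 : ℚ)))}.Finite := by
    intro i hi
    obtain ⟨P, hP⟩ : ∃ P : ℚ[X], P = ∏ k ∈ univ.erase i, (f k).map (Int.castRingHom ℚ) := ⟨_, rfl⟩
    have hPd : P.natDegree + 1 = ∑ k, (f k).natDegree := by
      rw [hP, natDegree_prod _ _ (fun k _ => (irr k).ne_zero), ← sum_erase_add univ _ (mem_univ i), hi]
      congr 1
      exact sum_congr rfl fun k _ => natDegree_map_eq_of_injective (RingHom.injective_int _) _
    have hPs : P.Separable := by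
      rw [hP]
      apply separable_prod'
      · intro k _ l _ hkl
        exact coprime_of (irr k) (irr l) (ass k l hkl)
      · intro k _
        exact (irr k).separable
    have hPne : P ≠ 0 := hPs.ne_zero
    have hcard := card_rootSet_eq_natDegree hPs (IsAlgClosed.splits (P.map (algebraMap ℚ ℂ)))
    have hroot : ∀ w ∈ P.rootSet ℂ, ∃ k, k ≠ i ∧ (fC f k).IsRoot w := by
      intro w hw
      rw [mem_rootSet, hP, map_prod, prod_eq_zero_iff] at hw
      obtain ⟨-, k, hk, h0⟩ := hw
      refine ⟨k, (mem_erase.1 hk).1, ?_⟩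
      rw [IsRoot.def]
      unfold fC
      rw [eval_map, ← aeval_def]
      exact h0
    have h := fin_even (κ := {T : Finset K // i ∉ T ∧ Even (∑ k ∈ T, (f k).natDegree)})
      (fun T => pT f i T.1) (fun T => pT_ne irr ass hi T.2.1)
      (fun T => by rw [pT_deg irr ass hi T.2.1]; exact T.2.2) (P.rootSet ℂ) (by
        rw [← Nat.card_coe_set_eq, Nat.card_eq_fintype_card, hcard]
        omega) (by
      intro w hw
      obtain ⟨k, hki, hk⟩ := hroot w hw
      rcases Nat.even_or_odd (f k).natDegree with hev | hod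
      · have hT : i ∉ ({k} : Finset K) := by
          rw [mem_singleton]
          exact fun h => hki h.symm
        refine ⟨⟨{k}, hT, by rw [sum_singleton]; exact hev⟩, ?_⟩
        rw [mult_pT irr ass hi hT (mem_singleton_self k) hk]
        exact odd_one
      · obtain ⟨l, hl, hl'⟩ : ∃ l ∈ Od f, l ∉ ({i, k} : Finset K) := by
          by_contra hcon
          push Not at hcon
          have h1 := card_le_card (show Od f ⊆ {i, k} from hcon)
          have h2 : ({i, k} : Finset K).card ≤ 2 := card_le_two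
          omega
        rw [mem_insert, mem_singleton, not_or] at hl'
        unfold Od at hl
        rw [mem_filter] at hl
        have hT : i ∉ ({k, l} : Finset K) := by
          rw [mem_insert, mem_singleton, not_or]
          exact ⟨fun h => hki h.symm, fun h => hl'.1 h.symm⟩
        refine ⟨⟨{k, l}, hT, ?_⟩, ?_⟩
        · rw [sum_pair (fun h => hl'.2 h.symm)]
          exact hod.add_odd hl.2
        · rw [mult_pT irr ass hi hT (mem_insert_self k _) hk]
          exact odd_one)
    refine h.subset ?_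
    intro t ht T
    rw [pT_eval]
    exact ht T.1 T.2.1 T.2.2
  have hfin : (⋃ i ∈ {i : K | (f i).natDegree = 1}, {t : ℚ | ∀ T : Finset K, i ∉ T →
      Even (∑ k ∈ T, (f k).natDegree) → IsSquare (∏ k ∈ T, (hom (f k) t 1 *
        hom (f k) (-((f i).coeff 0 : ℚ)) ((f i).coeff 1 : ℚ)))}).Finite :=
    Set.Finite.biUnion (Set.toFinite _) fun i hi => key i hi
  refine hfin.subset ?_
  rintro t ⟨-, i, hi, ht⟩
  exact Set.mem_biUnion (show i ∈ {i : K | (f i).natDegree = 1} from hi) ht

end Pool.Agent.W2helper7.FA
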