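import Pool.Agent.W2helper7.FA.Five
import Pool.Agent.W2helper7.FA.TM

/-!
# The square classes of the linear factors at a rational point
-/

set_option autoImplicit false

namespace Pool.Agent.W2helper7.FA

open Polynomial Finset Pool.Agent.W262.TW

/-- `p`-adic units -/
def Vu (p : ℕ) (q : ℚ) : Prop := q ≠ 0 ∧ padicValRat p q = 0

section

variable {p : ℕ} [hp : Fact p.Prime]

omit hp in
lemma Vu.one : Vu p 1 := ⟨one_ne_zero, padicValRat.one⟩

lemma Vu.mul {a b : ℚ} (ha : Vu p a) (hb : Vu p b) : Vu p (a * b) :=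
  ⟨mul_ne_zero ha.1 hb.1, by rw [padicValRat.mul ha.1 hb.1, ha.2, hb.2, add_zero]⟩

lemma Vu.pow {a : ℚ} (ha : Vu p a) (n : ℕ) : Vu p (a ^ n) :=
  ⟨pow_ne_zero _ ha.1, by rw [padicValRat.pow, ha.2, mul_zero]⟩

lemma Vu.div {a b : ℚ} (ha : Vu p a) (hb : Vu p b) : Vu p (a / b) :=
  ⟨div_ne_zero ha.1 hb.1, by rw [padicValRat.div ha.1 hb.1, ha.2, hb.2, sub_zero]⟩

lemma Vu.prod {ι : Type*} (s : Finset ι) (f : ι → ℚ) (h : ∀ i ∈ s, Vu p (f i)) :
    Vu p (∏ i ∈ s, f i) :=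
  Finset.prod_induction f (Vu p) (fun _ _ => Vu.mul) Vu.one h

omit hp in
lemma Vu.int {n : ℤ} (h : ¬ (p : ℤ) ∣ n) : Vu p (n : ℚ) := by
  refine ⟨?_, ?_⟩
  · rintro h0
    have : n = 0 := by exact_mod_cast h0
    exact h (this ▸ dvd_zero _)
  · rw [padicValRat.of_int, padicValInt.eq_zero_of_not_dvd h, Nat.cast_zero]

omit hp in
lemma hom_smul {R : Type*} [CommRing R] (f : ℤ[X]) (e w : R) :
    hom f (e * w) w = w ^ f.natDegree * f.eval₂ (Int.castRingHom R) e := by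
  unfold hom
  rw [eval₂_eq_sum_range, mul_sum]
  refine sum_congr rfl fun i hi => ?_
  have hi' : i ≤ f.natDegree := by
    have := mem_range.1 hi
    omega
  have h1 : w ^ f.natDegree = w ^ i * w ^ (f.natDegree - i) := by
    rw [← pow_add]
    congr 1
    omega
  rw [h1, eq_intCast, mul_pow]
  ring

lemma not_dvd_hom {g : ℤ[X]} {u w e : ℤ} (h1 : (p : ℤ) ∣ u - e * w) (hw : ¬ (p : ℤ) ∣ w)
    (hg : ¬ (p : ℤ) ∣ g.eval e) : ¬ (p : ℤ) ∣ hom g u w := by
  intro h
  have h2 := (ZMod.intCast_zmod_eq_zero_iff_dvd _ p).2 h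
  have h3 : ((u : ℤ) : ZMod p) = (e : ZMod p) * (w : ZMod p) := by
    have := (ZMod.intCast_zmod_eq_zero_iff_dvd _ p).2 h1
    push_cast at this
    linear_combination this
  have h4 : ((hom g u w : ℤ) : ZMod p) = hom g ((e : ZMod p) * w) (w : ZMod p) := by
    rw [← h3]
    exact (hom_map' (Int.castRingHom (ZMod p)) g u w).symm
  rw [h4, hom_smul] at h2
  have h5 := Polynomial.eval₂_at_apply (p := g) (Int.castRingHom (ZMod p)) e
  rw [eq_intCast, eq_intCast] at h5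
  rw [h5] at h2
  rcases mul_eq_zero.1 h2 with h6 | h6
  · have h7 := eq_zero_of_pow_eq_zero h6
    exact hw ((ZMod.intCast_zmod_eq_zero_iff_dvd _ p).1 h7)
  · exact hg ((ZMod.intCast_zmod_eq_zero_iff_dvd _ p).1 h6)

/-- one prime -/
lemma even_at {S : Finset ℕ} (hpS : p ∉ S) {e : Fin 5 → ℤ} (he : ∀ i j, i ≠ j → Sm S (e i - e j))
    {g : ℤ[X]} (hg : ∀ i, Sm S (g.eval (e i))) {d : ℤ} (hd : Sm S d) {N : ℕ} (hN : Even N)
    (hN0 : 0 < N) {m : Fin 5 → ℕ} (hm : ∀ i, Odd (m i)) {x y : ℚ}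
    (hP : (d : ℚ) * y ^ N = (∏ i, (x - e i) ^ m i) * val g x) (i : Fin 5) (hx : x ≠ e i) :
    Even (padicValInt p (x.num - e i * x.den)) := by
  by_cases hdv : (p : ℤ) ∣ x.num - e i * x.den
  swap
  · rw [padicValInt.eq_zero_of_not_dvd hdv]
    exact Even.zero
  have hden : (x.den : ℚ) ≠ 0 := by exact_mod_cast x.den_ne_zero
  have hpd : ¬ (p : ℤ) ∣ (x.den : ℤ) := by
    intro h
    have h1 : (p : ℤ) ∣ x.num := by
      have h2 := dvd_add hdv (dvd_mul_of_dvd_right h (e i))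
      rwa [sub_add_cancel] at h2
    have h3 : p ∣ x.num.natAbs := Int.natCast_dvd.1 h1
    have h4 : p ∣ x.den := by exact_mod_cast h
    have h5 := Nat.dvd_gcd h3 h4
    rw [x.reduced] at h5
    exact hp.out.one_lt.ne' (Nat.dvd_one.1 h5)
  have hden' : Vu p ((x.den : ℤ) : ℚ) := Vu.int hpd
  have hlin : ∀ j, x - e j = ((x.num - e j * x.den : ℤ) : ℚ) / ((x.den : ℤ) : ℚ) := by
    intro j
    rw [eq_div_iff hden'.1]
    push_cast
    rw [sub_mul, Rat.mul_den_eq_num]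
  have hother : ∀ j, j ≠ i → Vu p (x - e j) := by
    intro j hj
    rw [hlin j]
    refine (Vu.int ?_).div hden'
    intro h
    have h1 : (p : ℤ) ∣ (e i - e j) * x.den := by
      have h2 := dvd_sub h hdv
      have e1 : x.num - e j * x.den - (x.num - e i * x.den) = (e i - e j) * x.den := by ring
      rwa [e1] at h2
    rcases (Nat.prime_iff_prime_int.1 hp.out).dvd_or_dvd h1 with h2 | h2
    · exact hpS ((he i j (fun h => hj h.symm)).2 p hp.out h2)
    · exact hpd h2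
  have hgx : Vu p (val g x) := by
    have h1 : ¬ (p : ℤ) ∣ hom g x.num (x.den : ℤ) :=
      not_dvd_hom hdv hpd (fun h => hpS ((hg i).2 p hp.out h))
    have h2 : val g x = ((hom g x.num (x.den : ℤ) : ℤ) : ℚ) / ((x.den : ℤ) : ℚ) ^ g.natDegree := by
      rw [eq_div_iff (pow_ne_zero _ hden'.1)]
      have h3 : ((hom g x.num (x.den : ℤ) : ℤ) : ℚ) = hom g ((x.num : ℤ) : ℚ) ((x.den : ℤ) : ℚ) :=
        (hom_map' (Int.castRingHom ℚ) g x.num (x.den : ℤ)).symm
      rw [h3, hom_eval _ _ _ hden'.1]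
      have h4 : ((x.num : ℤ) : ℚ) / ((x.den : ℤ) : ℚ) = x := by
        rw [Int.cast_natCast, Rat.num_div_den]
      rw [h4, mul_comm, eval_map]
      rfl
    rw [h2]
    exact (Vu.int h1).div (hden'.pow _)
  have hdu : Vu p (d : ℚ) := Vu.int (fun h => hpS (hd.2 p hp.out h))
  have hxi : x - e i ≠ 0 := sub_ne_zero.2 hx
  have hrest : Vu p (∏ j ∈ univ.erase i, (x - e j) ^ m j) :=
    Vu.prod _ _ fun j hj => (hother j (ne_of_mem_erase hj)).pow _
  have hsplit : (d : ℚ) * y ^ N = (x - e i) ^ m i * ((∏ j ∈ univ.erase i, (x - e j) ^ m j) * val g x) := by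
    rw [hP, ← mul_prod_erase univ _ (mem_univ i), mul_assoc]
  have hrhs : (x - e i) ^ m i * ((∏ j ∈ univ.erase i, (x - e j) ^ m j) * val g x) ≠ 0 :=
    mul_ne_zero (pow_ne_zero _ hxi) (hrest.mul hgx).1
  have hy : y ≠ 0 := by
    rintro rfl
    rw [zero_pow hN0.ne', mul_zero] at hsplit
    exact hrhs hsplit.symm
  have hval := congrArg (padicValRat p) hsplit
  rw [padicValRat.mul hdu.1 (pow_ne_zero _ hy), padicValRat.pow,
    padicValRat.mul (pow_ne_zero _ hxi) (hrest.mul hgx).1, padicValRat.pow, hdu.2,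
    (hrest.mul hgx).2, zero_add, add_zero] at hval
  have hv1 : Even (padicValRat p (x - e i)) := by
    have h1 : Even ((m i : ℤ) * padicValRat p (x - e i)) := by
      rw [← hval]
      exact (Int.even_mul.2 (Or.inl (by exact_mod_cast hN)))
    rcases Int.even_mul.1 h1 with h2 | h2
    · exfalso
      have h3 : Even (m i) := by exact_mod_cast h2
      exact (Nat.not_even_iff_odd.2 (hm i)) h3
    · exact h2
  have hnum0 : ((x.num - e i * x.den : ℤ) : ℚ) ≠ 0 := by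
    intro h
    rw [hlin i, h, zero_div] at hxi
    exact hxi rfl
  rw [hlin i, padicValRat.div hnum0 hden'.1, hden'.2, sub_zero, padicValRat.of_int] at hv1
  exact_mod_cast hv1

end

/-- **The uniform bound** for the curves. -/
theorem curves (S : Finset ℕ) : ∃ B : ℕ, ∀ (e : Fin 5 → ℤ) (g : ℤ[X]) (d : ℤ) (N : ℕ) (m : Fin 5 → ℕ),
    (∀ i j, i ≠ j → Sm S (e i - e j)) → (∀ i, Sm S (g.eval (e i))) → Sm S d → Even N → 0 < N →
    (∀ i, Odd (m i)) →
    {x : ℚ | ∃ y : ℚ, (d : ℚ) * y ^ N = (∏ i, (x - e i) ^ m i) * val g x}.encard ≤ B := by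
  classical
  obtain ⟨B, hB⟩ := unif S
  refine ⟨B + 5, fun e g d N m he hg hd hN hN0 hm => ?_⟩
  have hsub : {x : ℚ | ∃ y : ℚ, (d : ℚ) * y ^ N = (∏ i, (x - e i) ^ m i) * val g x} ⊆
      {x : ℚ | Cond S e x} ∪ Set.range (fun i => (e i : ℚ)) := by
    rintro x ⟨y, hP⟩
    by_cases hx : ∃ i, x = e i
    · obtain ⟨i, hi⟩ := hx
      exact Or.inr ⟨i, hi.symm⟩
    push Not at hx
    left
    intro i
    have hnum0 : x.num - e i * x.den ≠ 0 := by
      intro h
      apply hx i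
      have h1 : (x.num : ℚ) - e i * x.den = 0 := by exact_mod_cast h
      have hden : (x.den : ℚ) ≠ 0 := by exact_mod_cast x.den_ne_zero
      rw [← Rat.mul_den_eq_num, ← sub_mul] at h1
      exact sub_eq_zero.1 ((mul_eq_zero.1 h1).resolve_right hden)
    apply sq_class S hnum0
    intro p hpp hpS
    have : Fact p.Prime := ⟨hpp⟩
    exact even_at hpS he hg hd hN hN0 hm hP i (hx i)
  refine (Set.encard_le_encard hsub).trans ((Set.encard_union_le _ _).trans ?_)
  push_cast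
  refine add_le_add (hB e he) ?_
  rw [← Set.image_univ]
  refine (Set.encard_image_le _ _).trans ?_
  rw [Set.encard_univ, ENat.card_eq_coe_fintype_card, Fintype.card_fin]
  rfl

end Pool.Agent.W2helper7.FA
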