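import Pool.Agent.W2helper7.FA.Mob

/-!
# Finiteness for integral polynomials, over the rational numbers
-/

set_option autoImplicit false

namespace Pool.Agent.W2helper7.FA

open Polynomial Pool.Agent.W2helper6.HE

/-- the value `f(x)` -/
noncomputable def val (f : ℤ[X]) (x : ℚ) : ℚ := f.eval₂ (Int.castRingHom ℚ) x

/-- the complex numbers which are roots of odd multiplicity of one of the polynomials -/
def oddRoots {K : Type} (f : K → ℤ[X]) : Set ℂ :=
  {z | ∃ k, Odd (((f k).map (Int.castRingHom ℂ)).rootMultiplicity z)}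

lemma map_ne {R : Type*} [CommRing R] [CharZero R] {f : ℤ[X]} (hf : f ≠ 0) :
    f.map (Int.castRingHom R) ≠ 0 :=
  (Polynomial.map_ne_zero_iff (RingHom.injective_int (Int.castRingHom R))).2 hf

lemma oddRoots_finite {K : Type} [Finite K] {f : K → ℤ[X]} (hf : ∀ k, f k ≠ 0) :
    (oddRoots f).Finite := by
  have : oddRoots f ⊆ ⋃ k, {w : ℂ | ((f k).map (Int.castRingHom ℂ)).IsRoot w} := by
    rintro w ⟨k, hk⟩
    rw [Set.mem_iUnion]
    exact ⟨k, (Polynomial.rootMultiplicity_pos'.1 hk.pos).2⟩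
  exact (Set.finite_iUnion fun k => Polynomial.finite_setOfPred_isRoot (map_ne (hf k))).subset this

lemma mapmap (f : ℤ[X]) : (f.map (Int.castRingHom ℚ)).map (algebraMap ℚ ℂ) =
    f.map (Int.castRingHom ℂ) := by
  rw [Polynomial.map_map]
  congr 1

lemma mult_C {F : Type*} [Field F] {c : F} (hc : c ≠ 0) {p : F[X]} (hp : p ≠ 0) (w : F) :
    (C c * p).rootMultiplicity w = p.rootMultiplicity w := by
  rw [rootMultiplicity_mul (mul_ne_zero (C_ne_zero.2 hc) hp), rootMultiplicity_C, zero_add]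

/-- the polynomials `c k * q k` -/
noncomputable def pp {κ : Type} (c : κ → ℚ) (q : κ → ℤ[X]) (k : κ) : ℚ[X] :=
  C (c k) * (q k).map (Int.castRingHom ℚ)

variable {κ : Type} [Fintype κ] {c : κ → ℚ} {q : κ → ℤ[X]}

omit [Fintype κ] in
lemma pp_ne (hc : ∀ k, c k ≠ 0) (hq : ∀ k, q k ≠ 0) (k : κ) : pp c q k ≠ 0 :=
  mul_ne_zero (C_ne_zero.2 (hc k)) (map_ne (hq k))

omit [Fintype κ] in
lemma pp_deg (hc : ∀ k, c k ≠ 0) (k : κ) : (pp c q k).natDegree = (q k).natDegree := by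
  unfold pp
  rw [natDegree_C_mul (hc k), natDegree_map_eq_of_injective (RingHom.injective_int _)]

omit [Fintype κ] in
lemma pp_mult (hc : ∀ k, c k ≠ 0) (hq : ∀ k, q k ≠ 0) (k : κ) (w : ℂ) :
    ((pp c q k).map (algebraMap ℚ ℂ)).rootMultiplicity w =
      ((q k).map (Int.castRingHom ℂ)).rootMultiplicity w := by
  unfold pp
  rw [Polynomial.map_mul, mapmap, map_C, mult_C _ (map_ne (hq k))]
  rw [Ne, map_eq_zero]
  exact hc k

omit [Fintype κ] in
lemma pp_eval (k : κ) (x : ℚ) : (pp c q k).eval x = c k * val (q k) x := by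
  unfold pp val
  rw [eval_mul, eval_C, eval_map]

lemma fin_int (hc : ∀ k, c k ≠ 0) (hq : ∀ k, q k ≠ 0) (hodd : ∃ k, Odd (q k).natDegree) (S : Set ℂ)
    (h4 : 4 ≤ S.ncard) (hS : S ⊆ oddRoots q) : {x : ℚ | ∀ k, IsSquare (c k * val (q k) x)}.Finite := by
  have h := finite_values ℂ (pp c q) (pp_ne hc hq) (by
    obtain ⟨k, hk⟩ := hodd
    exact ⟨k, by rw [pp_deg hc]; exact hk⟩) (by
    refine le_trans h4 (Set.ncard_le_ncard ?_ ?_)
    · intro w hw
      obtain ⟨k, hk⟩ := hS hw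
      exact ⟨k, by rw [pp_mult hc hq]; exact hk⟩
    · refine (oddRoots_finite hq).subset ?_
      rintro w ⟨k, hk⟩
      exact ⟨k, by rw [pp_mult hc hq] at hk; exact hk⟩) {1}
  refine h.subset ?_
  intro x hx k
  obtain ⟨y, hy⟩ := hx k
  exact ⟨1, Finset.mem_singleton_self 1, y, by rw [pp_eval, hy]; ring⟩

lemma fin_int_M (z : ℤ) (hc : ∀ k, c k ≠ 0) (hq : ∀ k, q k ≠ 0)
    (hodd : ∃ k, Odd (q k).natDegree ∧ (q k).eval z ≠ 0) (S : Set ℂ)
    (h4 : 4 ≤ S.ncard) (hS : S ⊆ oddRoots q) (hz : (z : ℂ) ∉ S) :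
    {x : ℚ | ∀ k, IsSquare (c k * val (q k) x * (x - z) ^ (q k).natDegree)}.Finite := by
  have h := fin_M ℂ (pp c q) (z : ℚ) (pp_ne hc hq) (by
    obtain ⟨k, hk, hk'⟩ := hodd
    refine ⟨k, ?_⟩
    rw [pp_deg hc, rootMultiplicity_eq_zero, Nat.sub_zero]
    · exact hk
    · rw [IsRoot.def, pp_eval]
      have h2 := Polynomial.eval₂_at_apply (p := q k) (Int.castRingHom ℚ) z
      rw [eq_intCast, eq_intCast] at h2
      unfold val
      rw [h2]
      exact mul_ne_zero (hc k) (by exact_mod_cast hk')) S h4 (by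
    intro w hw
    obtain ⟨k, hk⟩ := hS hw
    refine ⟨?_, k, by rw [pp_mult hc hq]; exact hk⟩
    rintro rfl
    apply hz
    have : algebraMap ℚ ℂ (z : ℚ) = (z : ℂ) := by simp
    rwa [this] at hw) {1}
  refine h.subset ?_
  intro x hx k
  obtain ⟨y, hy⟩ := hx k
  exact ⟨1, Finset.mem_singleton_self 1, y, by rw [pp_eval, pp_deg hc, hy]; ring⟩

end Pool.Agent.W2helper7.FA
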