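import Pool.Agent.W2helper7.FA.SelQ
import Pool.Agent.W2helper7.FA.Int

/-!
# The values of the linear forms at a rational point of a cyclic covering
-/

set_option autoImplicit false

namespace Pool.Agent.W2helper7.FA

open Polynomial Finset Pool.Agent.N449.SP

/-- the binary form `∑ k ≤ n, c k * u ^ k * w ^ (n - k)`, `c k` the coefficients of `g` -/
noncomputable def form (g : ℤ[X]) (n : ℕ) {R : Type*} [CommRing R] (u w : R) : R :=
  ∑ k ∈ range (n + 1), (g.coeff k : R) * u ^ k * w ^ (n - k)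

lemma form_map {R R' : Type*} [CommRing R] [CommRing R'] (φ : R →+* R') (g : ℤ[X]) (n : ℕ) (u w : R) :
    form g n (φ u) (φ w) = φ (form g n u w) := by
  unfold form
  rw [map_sum]
  refine sum_congr rfl fun i _ => ?_
  rw [map_mul, map_mul, map_pow, map_pow, map_intCast]

lemma form_smul {R : Type*} [CommRing R] (g : ℤ[X]) (n : ℕ) (l a b : R) :
    form g n (l * a) (l * b) = l ^ n * form g n a b := by
  unfold form
  rw [mul_sum]
  refine sum_congr rfl fun k hk => ?_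
  have hk' : k ≤ n := by
    have := mem_range.1 hk
    omega
  have h1 : l ^ n = l ^ k * l ^ (n - k) := by
    rw [← pow_add]
    congr 1
    omega
  rw [h1, mul_pow, mul_pow]
  ring

/-- the linear form vanishing at `P` -/
def lf (P : ℤ × ℤ) (u w : ℤ) : ℤ := P.2 * u - P.1 * w

/-- the determinant of two points -/
def dt (P Q : ℤ × ℤ) : ℤ := P.1 * Q.2 - Q.1 * P.2

lemma not_both {p : ℕ} (hp : p.Prime) {S : Finset ℕ} (hpS : p ∉ S) {P Q : ℤ × ℤ}
    (h : Sm S (dt P Q)) {u w : ℤ} (huw : IsCoprime u w) (h1 : (p : ℤ) ∣ lf P u w)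
    (h2 : (p : ℤ) ∣ lf Q u w) : False := by
  have hpp := Nat.prime_iff_prime_int.1 hp
  have e1 : (p : ℤ) ∣ dt P Q * u := by
    have e : dt P Q * u = P.1 * lf Q u w - Q.1 * lf P u w := by
      unfold dt lf
      ring
    rw [e]
    exact dvd_sub (dvd_mul_of_dvd_right h2 _) (dvd_mul_of_dvd_right h1 _)
  have e2 : (p : ℤ) ∣ dt P Q * w := by
    have e : dt P Q * w = P.2 * lf Q u w - Q.2 * lf P u w := by
      unfold dt lf
      ring
    rw [e]
    exact dvd_sub (dvd_mul_of_dvd_right h2 _) (dvd_mul_of_dvd_right h1 _)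
  have h3 : ¬ (p : ℤ) ∣ dt P Q := fun h' => hpS (h.2 p hp h')
  have h4 := (hpp.dvd_or_dvd e1).resolve_left h3
  have h5 := (hpp.dvd_or_dvd e2).resolve_left h3
  obtain ⟨a, b, hab⟩ := huw
  have h6 : (p : ℤ) ∣ 1 := by
    rw [← hab]
    exact dvd_add (dvd_mul_of_dvd_right h4 _) (dvd_mul_of_dvd_right h5 _)
  exact hpp.not_unit (isUnit_of_dvd_one h6)

lemma not_form {p : ℕ} (hp : p.Prime) {P : ℤ × ℤ} (hP : ¬ ((p : ℤ) ∣ P.1 ∧ (p : ℤ) ∣ P.2))
    {g : ℤ[X]} {n : ℕ} (hg : ¬ (p : ℤ) ∣ form g n P.1 P.2) {u w : ℤ} (huw : IsCoprime u w)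
    (h1 : (p : ℤ) ∣ lf P u w) : ¬ (p : ℤ) ∣ form g n u w := by
  have : Fact p.Prime := ⟨hp⟩
  intro h
  have z : ∀ a : ℤ, ((a : ℤ) : ZMod p) = 0 ↔ (p : ℤ) ∣ a := fun a =>
    ZMod.intCast_zmod_eq_zero_iff_dvd a p
  have h2 : (P.2 : ZMod p) * u = P.1 * w := by
    have := (z _).2 h1
    unfold lf at this
    push_cast at this
    linear_combination this
  have huw' : ¬ ((u : ZMod p) = 0 ∧ (w : ZMod p) = 0) := by
    rintro ⟨hu, hw⟩
    obtain ⟨a, b, hab⟩ := huw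
    have h6 : (p : ℤ) ∣ 1 := by
      rw [← hab]
      exact dvd_add (dvd_mul_of_dvd_right ((z _).1 hu) _) (dvd_mul_of_dvd_right ((z _).1 hw) _)
    exact (Nat.prime_iff_prime_int.1 hp).not_unit (isUnit_of_dvd_one h6)
  obtain ⟨l, hl, hu, hw⟩ : ∃ l : ZMod p, l ≠ 0 ∧ (u : ZMod p) = l * P.1 ∧ (w : ZMod p) = l * P.2 := by
    by_cases hb : (P.2 : ZMod p) = 0
    · have ha : (P.1 : ZMod p) ≠ 0 := fun ha => hP ⟨(z _).1 ha, (z _).1 hb⟩
      rw [hb, zero_mul] at h2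
      have hw := (mul_eq_zero.1 h2.symm).resolve_left ha
      have hu : (u : ZMod p) ≠ 0 := fun hu => huw' ⟨hu, hw⟩
      exact ⟨u / P.1, div_ne_zero hu ha, by rw [div_mul_cancel₀ _ ha], by rw [hw, hb, mul_zero]⟩
    · have hu : (u : ZMod p) = w / P.2 * P.1 := by
        rw [div_mul_eq_mul_div, eq_div_iff hb]
        linear_combination h2
      refine ⟨w / P.2, ?_, hu, by rw [div_mul_cancel₀ _ hb]⟩
      intro h0
      rw [h0, zero_mul] at hu
      rcases div_eq_zero_iff.1 h0 with h3 | h3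
      · exact huw' ⟨hu, h3⟩
      · exact hb h3
  have h3 := (z _).2 h
  have h4 : ((form g n u w : ℤ) : ZMod p) = form g n (u : ZMod p) (w : ZMod p) :=
    (form_map (Int.castRingHom (ZMod p)) g n u w).symm
  have h5 : ((form g n P.1 P.2 : ℤ) : ZMod p) = form g n (P.1 : ZMod p) (P.2 : ZMod p) :=
    (form_map (Int.castRingHom (ZMod p)) g n P.1 P.2).symm
  rw [h4, hu, hw, form_smul, ← h5] at h3
  exact hg ((z _).1 ((mul_eq_zero.1 h3).resolve_left (pow_ne_zero _ hl)))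

/-- the branch points `P i` are apart from each other and from the zeros of the form -/
def Apart (S : Finset ℕ) {r : ℕ} (P : Fin r → ℤ × ℤ) (g : ℤ[X]) (n : ℕ) : Prop :=
  (∀ i j, i ≠ j → Sm S (dt (P i) (P j))) ∧ ∀ i, Sm S (form g n (P i).1 (P i).2)

/-- the linear forms at a rational point -/
theorem lf_sel {S : Finset ℕ} {r : ℕ} (hr : 2 ≤ r) {P : Fin r → ℤ × ℤ} {g : ℤ[X]} {n : ℕ}
    (hA : Apart S P g n) {d : ℤ} (hd : Sm S d) {N : ℕ} (hN : 0 < N) {m : Fin r → ℕ}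
    (hm : ∀ i, (m i).Coprime N) {u w : ℤ} (huw : IsCoprime u w) {y : ℚ}
    (hP : (d : ℚ) * y ^ N = (∏ i, (lf (P i) u w : ℚ) ^ m i) * (form g n u w : ℤ)) (i : Fin r)
    (hi : lf (P i) u w ≠ 0) : Sel S N (lf (P i) u w : ℚ) := by
  refine ⟨by exact_mod_cast hi, fun p hp hpS => ?_⟩
  have : Fact p.Prime := ⟨hp⟩
  have hint : ∀ z : ℤ, ¬ (p : ℤ) ∣ z → (z : ℚ) ≠ 0 ∧ padicValRat p (z : ℚ) = 0 := by
    intro z hz
    refine ⟨?_, ?_⟩
    · rintro h0
      have : z = 0 := by exact_mod_cast h0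
      exact hz (this ▸ dvd_zero _)
    · rw [padicValRat.of_int, padicValInt.eq_zero_of_not_dvd hz, Nat.cast_zero]
  by_cases hdv : (p : ℤ) ∣ lf (P i) u w
  swap
  · rw [(hint _ hdv).2]
    exact dvd_zero _
  have hother : ∀ j, j ≠ i → ¬ (p : ℤ) ∣ lf (P j) u w := fun j hj h =>
    not_both hp hpS (hA.1 i j (Ne.symm hj)) huw hdv h
  have hPi : ¬ ((p : ℤ) ∣ (P i).1 ∧ (p : ℤ) ∣ (P i).2) := by
    rintro ⟨h1, h2⟩
    obtain ⟨j, hj⟩ : ∃ j : Fin r, j ≠ i := by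
      by_cases h : i = ⟨0, by omega⟩
      · exact ⟨⟨1, by omega⟩, by rw [h]; intro h'; simpa using congrArg Fin.val h'⟩
      · exact ⟨⟨0, by omega⟩, fun h' => h h'.symm⟩
    apply hpS
    apply (hA.1 i j (Ne.symm hj)).2 p hp
    unfold dt
    exact dvd_sub (dvd_mul_of_dvd_left h1 _) (dvd_mul_of_dvd_right h2 _)
  have hg : ¬ (p : ℤ) ∣ form g n u w :=
    not_form hp hPi (fun h => hpS ((hA.2 i).2 p hp h)) huw hdv
  have hg' := hint _ hg
  have hdu := hint d (fun h => hpS (hd.2 p hp h))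
  have hiq : (lf (P i) u w : ℚ) ≠ 0 := by exact_mod_cast hi
  have hrest : (∏ j ∈ univ.erase i, (lf (P j) u w : ℚ) ^ m j) ≠ 0 ∧
      padicValRat p (∏ j ∈ univ.erase i, (lf (P j) u w : ℚ) ^ m j) = 0 := by
    refine Finset.prod_induction _ (fun q : ℚ => q ≠ 0 ∧ padicValRat p q = 0) ?_ ?_ ?_
    · rintro a b ⟨ha, ha'⟩ ⟨hb, hb'⟩
      exact ⟨mul_ne_zero ha hb, by rw [padicValRat.mul ha hb, ha', hb', add_zero]⟩
    · exact ⟨one_ne_zero, padicValRat.one⟩
    · intro j hj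
      obtain ⟨h1, h2⟩ := hint _ (hother j (ne_of_mem_erase hj))
      exact ⟨pow_ne_zero _ h1, by rw [padicValRat.pow, h2, mul_zero]⟩
  have hsplit : (d : ℚ) * y ^ N = (lf (P i) u w : ℚ) ^ m i *
      ((∏ j ∈ univ.erase i, (lf (P j) u w : ℚ) ^ m j) * (form g n u w : ℤ)) := by
    rw [hP, ← mul_prod_erase univ _ (mem_univ i), mul_assoc]
  have hR := mul_ne_zero hrest.1 hg'.1
  have hy : y ≠ 0 := by
    rintro rfl
    rw [zero_pow hN.ne', mul_zero] at hsplit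
    exact mul_ne_zero (pow_ne_zero _ hiq) hR hsplit.symm
  have hval := congrArg (padicValRat p) hsplit
  rw [padicValRat.mul hdu.1 (pow_ne_zero _ hy), padicValRat.pow,
    padicValRat.mul (pow_ne_zero _ hiq) hR, padicValRat.pow,
    padicValRat.mul hrest.1 hg'.1, hdu.2, hrest.2, hg'.2, zero_add, add_zero, add_zero] at hval
  have h1 : (N : ℤ) ∣ (m i : ℤ) * padicValRat p (lf (P i) u w : ℚ) := by
    rw [← hval]
    exact dvd_mul_right _ _
  have h2 : IsCoprime (N : ℤ) (m i : ℤ) := Nat.isCoprime_iff_coprime.2 (hm i).symm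
  exact h2.dvd_of_dvd_mul_left h1

/-- normalised homogeneous coordinates of the points of the projective line -/
def Nm (q : ℤ × ℤ) : Prop := IsCoprime q.1 q.2 ∧ (0 < q.2 ∨ q.2 = 0 ∧ q.1 = 1)

lemma nm_inj {q q' : ℤ × ℤ} (h : Nm q) (h' : Nm q') (he : q.1 * q'.2 = q'.1 * q.2) : q = q' := by
  obtain ⟨hc, h1⟩ := h
  obtain ⟨hc', h1'⟩ := h'
  rcases h1 with h2 | ⟨h2, h3⟩
  · rcases h1' with h2' | ⟨h2', h3'⟩
    · have hq : (q.1 : ℚ) / q.2 = (q'.1 : ℚ) / q'.2 := by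
        have e1 : (q.2 : ℚ) ≠ 0 := by exact_mod_cast h2.ne'
        have e2 : (q'.2 : ℚ) ≠ 0 := by exact_mod_cast h2'.ne'
        rw [div_eq_div_iff e1 e2]
        exact_mod_cast he
      obtain ⟨a1, a2⟩ := Rat.div_int_inj h2 h2' (Int.isCoprime_iff_gcd_eq_one.1 hc)
        (Int.isCoprime_iff_gcd_eq_one.1 hc') hq
      exact Prod.ext a1 a2
    · rw [h2', h3', mul_zero, one_mul] at he
      omega
  · rcases h1' with h2' | ⟨h2', h3'⟩
    · rw [h2, h3, mul_zero, one_mul] at he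
      omega
    · exact Prod.ext (by rw [h3, h3']) (by rw [h2, h2'])

end Pool.Agent.W2helper7.FA
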