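import Pool.Agent.N449.SP.UnitNF

/-!
# The unit equation over the rational numbers
-/

set_option autoImplicit false

namespace Pool.Agent.W2helper7.FA

open Pool.Agent.N449.SP

/-- nonzero integers all of whose prime factors are in `S` -/
def Sm (S : Finset ℕ) (n : ℤ) : Prop := n ≠ 0 ∧ ∀ p : ℕ, p.Prime → (p : ℤ) ∣ n → p ∈ S

/-- the group generated by the primes in `S` -/
noncomputable def Gam (S : Finset ℕ) : Subgroup ℚˣ :=
  Subgroup.closure ((S.image fun p : ℕ => if h : (p : ℚ) = 0 then 1 else Units.mk0 (p : ℚ) h : Finset ℚˣ) : Set ℚˣ)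

lemma gam_fg (S : Finset ℕ) : (Gam S).FG := ⟨_, rfl⟩

lemma gam_nat (S : Finset ℕ) (n : ℕ) (hn : n ≠ 0) (h : ∀ p : ℕ, p.Prime → p ∣ n → p ∈ S) :
    ∃ u ∈ Gam S, (u : ℚ) = n := by
  induction n using induction_on_primes with
  | zero => exact absurd rfl hn
  | one => exact ⟨1, one_mem _, by simp⟩
  | prime_mul p a hp ih =>
    have ha : a ≠ 0 := by
      rintro rfl
      exact hn (mul_zero p)
    obtain ⟨u, hu, hu'⟩ := ih ha (fun q hq hqa => h q hq (dvd_mul_of_dvd_right hqa p))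
    have hpS : p ∈ S := h p hp (dvd_mul_right p a)
    have hp0 : (p : ℚ) ≠ 0 := by exact_mod_cast hp.ne_zero
    refine ⟨Units.mk0 (p : ℚ) hp0 * u, mul_mem (Subgroup.subset_closure ?_) hu, ?_⟩
    · rw [Finset.mem_coe, Finset.mem_image]
      exact ⟨p, hpS, by rw [dif_neg hp0]⟩
    · rw [Units.val_mul, Units.val_mk0, hu']
      push_cast
      ring

lemma pm_int {S : Finset ℕ} {n : ℤ} (h : Sm S n) : (n : ℚ) ∈ Pm (Gam S) := by
  obtain ⟨u, hu, hu'⟩ := gam_nat S n.natAbs (Int.natAbs_ne_zero.2 h.1) (fun p hp hpn =>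
    h.2 p hp (Int.natCast_dvd.2 hpn))
  refine ⟨u, hu, ?_⟩
  rcases Int.natAbs_eq n with h1 | h1
  · left
    rw [hu']
    exact (congrArg (Int.cast : ℤ → ℚ) h1).trans (Int.cast_natCast _)
  · right
    rw [hu']
    exact (congrArg (Int.cast : ℤ → ℚ) h1).trans (by rw [Int.cast_neg, Int.cast_natCast])

lemma pm_div {Γ : Subgroup ℚˣ} {a b : ℚ} (ha : a ∈ Pm Γ) (hb : b ∈ Pm Γ) : a / b ∈ Pm Γ := by
  obtain ⟨u, hu, hu'⟩ := ha
  obtain ⟨v, hv, hv'⟩ := hb
  refine ⟨u * v⁻¹, mul_mem hu (inv_mem hv), ?_⟩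
  rw [Units.val_mul, Units.val_inv_eq_inv_val]
  rcases hu' with rfl | rfl <;> rcases hv' with rfl | rfl
  · left; rw [div_eq_mul_inv]
  · right; rw [div_neg, div_eq_mul_inv]
  · right; rw [neg_div, div_eq_mul_inv]
  · left; rw [neg_div_neg_eq, div_eq_mul_inv]

lemma pm_ne {Γ : Subgroup ℚˣ} {a : ℚ} (ha : a ∈ Pm Γ) : a ≠ 0 := by
  obtain ⟨u, hu, rfl | rfl⟩ := ha
  · exact u.ne_zero
  · exact neg_ne_zero.2 u.ne_zero

/-- **The unit equation in two unknowns.** -/
theorem unit_two (S : Finset ℕ) :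
    {x : ℚ | x ∈ Pm (Gam S) ∧ 1 - x ∈ Pm (Gam S)}.Finite := by
  classical
  obtain ⟨R, hR⟩ := ue_numberField ℚ (Gam S) (gam_fg S) 3
  refine (R.image fun r => -r).finite_toSet.subset ?_
  rintro x ⟨h1, h2⟩
  have hx := pm_ne h1
  have hx' := pm_ne h2
  have h3 : (-1 : ℚ) ∈ Pm (Gam S) := ⟨1, one_mem _, Or.inr (by simp)⟩
  have key := hR ![x, 1 - x, -1] (by
    intro i
    fin_cases i
    · exact h1
    · exact h2
    · exact h3) (by
    rw [Fin.sum_univ_three]
    show x + (1 - x) + -1 = 0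
    ring) (by
    intro J hJ hs
    have hs2 : ∑ i, (if i ∈ J then (![x, 1 - x, -1] : Fin 3 → ℚ) i else 0) = 0 := by
      rw [← Finset.sum_filter, Finset.filter_mem_eq_inter, Finset.univ_inter]
      exact hs
    rw [Fin.sum_univ_three] at hs2
    have e0 : (![x, 1 - x, -1] : Fin 3 → ℚ) 0 = x := rfl
    have e1 : (![x, 1 - x, -1] : Fin 3 → ℚ) 1 = 1 - x := rfl
    have e2 : (![x, 1 - x, -1] : Fin 3 → ℚ) 2 = -1 := rfl
    rw [e0, e1, e2] at hs2
    have hx1 : x - 1 ≠ 0 := fun h => hx' (by linear_combination -h)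
    obtain ⟨j, hj⟩ := hJ
    by_cases k0 : (0 : Fin 3) ∈ J <;> by_cases k1 : (1 : Fin 3) ∈ J <;>
      by_cases k2 : (2 : Fin 3) ∈ J <;> simp only [k0, k1, k2, if_true, if_false] at hs2
    · ext i
      fin_cases i <;> simp [k0, k1, k2]
    · exfalso
      have : (1 : ℚ) = 0 := by linear_combination hs2
      exact one_ne_zero this
    · exact absurd (by linear_combination hs2) hx1
    · exact absurd (by linear_combination hs2) hx
    · exact absurd (by linear_combination -hs2) hx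
    · exact absurd (by linear_combination hs2) hx'
    · exfalso
      have : (1 : ℚ) = 0 := by linear_combination -hs2
      exact one_ne_zero this
    · exfalso
      fin_cases j
      · exact k0 hj
      · exact k1 hj
      · exact k2 hj) 0 2
  rw [Finset.mem_coe, Finset.mem_image]
  refine ⟨_, key, ?_⟩
  show -(x / -1) = x
  rw [div_neg, div_one, neg_neg]

end Pool.Agent.W2helper7.FA
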