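import Pool.Agent.W2helper7.FA.EvenT
import Pool.Agent.W2helper7.FA.Unit

/-!
# Five branch points which stay apart from the others outside `S`
-/

set_option autoImplicit false

namespace Pool.Agent.W2helper7.FA

open Polynomial Finset Pool.Agent.N449.SP

/-- the product of the primes in `S` -/
def PS (S : Finset ℕ) : ℕ := ∏ p ∈ S.filter Nat.Prime, p

lemma PS_ne (S : Finset ℕ) : PS S ≠ 0 := by
  unfold PS
  rw [prod_ne_zero_iff]
  intro p hp
  exact (mem_filter.1 hp).2.ne_zero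

/-- an integer with even valuations outside `S` -/
lemma sq_class (S : Finset ℕ) {n : ℤ} (hn : n ≠ 0)
    (h : ∀ p : ℕ, p.Prime → p ∉ S → Even (padicValInt p n)) :
    ∃ δ z : ℤ, δ.natAbs ≤ PS S ∧ n = δ * z ^ 2 := by
  obtain ⟨a, b, hab, ha⟩ := Nat.sq_mul_squarefree n.natAbs
  have hn0 : n.natAbs ≠ 0 := Int.natAbs_ne_zero.2 hn
  have ha0 : a ≠ 0 := by
    rintro rfl
    exact hn0 (by rw [← hab, mul_zero])
  have hb0 : b ≠ 0 := by
    rintro rfl
    exact hn0 (by rw [← hab, zero_pow two_ne_zero, zero_mul])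
  have hdvd : a ∣ PS S := by
    rw [← Nat.prod_primeFactors_of_squarefree ha]
    unfold PS
    apply prod_dvd_prod_of_subset
    intro p hp
    obtain ⟨hpp, hpa, -⟩ := Nat.mem_primeFactors.1 hp
    rw [mem_filter]
    refine ⟨?_, hpp⟩
    by_contra hpS
    have h1 := h p hpp hpS
    have : Fact p.Prime := ⟨hpp⟩
    have h2 : padicValInt p n = 2 * padicValNat p b + padicValNat p a := by
      unfold padicValInt
      rw [← hab, padicValNat.mul (pow_ne_zero _ hb0) ha0, padicValNat.pow]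
    have h3 : padicValNat p a = 1 := by
      have h4 : 1 ≤ padicValNat p a := one_le_padicValNat_of_dvd ha0 hpa
      have h5 : padicValNat p a ≤ 1 := by
        by_contra h6
        push Not at h6
        have h7 : p ^ 2 ∣ a := (padicValNat_dvd_iff_le ha0).2 h6
        rw [pow_two] at h7
        exact hpp.one_lt.ne' (Nat.isUnit_iff.1 (ha p h7))
      omega
    rw [h2, h3] at h1
    rw [Nat.even_add_one] at h1
    exact h1 (even_two_mul _)
  have hle : a ≤ PS S := Nat.le_of_dvd (Nat.pos_of_ne_zero (PS_ne S)) hdvd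
  rcases Int.natAbs_eq n with h1 | h1
  · refine ⟨a, b, by rwa [Int.natAbs_natCast], ?_⟩
    rw [h1, ← hab]
    push_cast
    ring
  · refine ⟨-a, b, by rwa [Int.natAbs_neg, Int.natAbs_natCast], ?_⟩
    rw [h1, ← hab]
    push_cast
    ring

/-- the possible square classes -/
noncomputable def DD (S : Finset ℕ) : Finset ℚ :=
  ((Finset.Icc (-(PS S : ℤ)) (PS S)) ×ˢ (Finset.Icc (-(PS S : ℤ)) (PS S))).image
    (fun q => (q.1 : ℚ) * q.2)

lemma DD_mem (S : Finset ℕ) {δ δ' : ℤ} (h : δ.natAbs ≤ PS S) (h' : δ'.natAbs ≤ PS S) :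
    (δ : ℚ) * δ' ∈ DD S := by
  unfold DD
  rw [mem_image]
  refine ⟨(δ, δ'), ?_, rfl⟩
  rw [mem_product, Finset.mem_Icc, Finset.mem_Icc]
  omega

/-- the numbers `t` for a fixed configuration -/
def TL (S : Finset ℕ) (l : Fin 5 → ℚ) : Set ℚ :=
  {t | ∀ q : Fin 5 × Fin 5, ∃ δ ∈ DD S, ∃ y, (t - l q.1) * (t - l q.2) = δ * y ^ 2}

lemma TL_finite (S : Finset ℕ) {l : Fin 5 → ℚ} (hl : Function.Injective l) : (TL S l).Finite := by
  classical
  have hinj : Function.Injective (fun i => algebraMap ℚ ℂ (l i)) :=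
    (algebraMap ℚ ℂ).injective.comp hl
  have h := fin_evenT (κ := Fin 5 × Fin 5) (fun q => (X - C (l q.1)) * (X - C (l q.2)))
    (fun q => mul_ne_zero (X_sub_C_ne_zero _) (X_sub_C_ne_zero _))
    (fun q => by
      rw [natDegree_mul (X_sub_C_ne_zero _) (X_sub_C_ne_zero _), natDegree_X_sub_C,
        natDegree_X_sub_C]
      exact ⟨1, rfl⟩)
    (Set.range fun i => algebraMap ℚ ℂ (l i)) (by
      rw [← Set.image_univ, Set.ncard_image_of_injective _ hinj, Set.ncard_univ,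
        Nat.card_eq_fintype_card, Fintype.card_fin]) (by
      rintro _ ⟨i, rfl⟩
      obtain ⟨j, hj⟩ : ∃ j : Fin 5, j ≠ i := by
        by_cases h : i = 0
        · exact ⟨1, by rw [h]; decide⟩
        · exact ⟨0, fun h' => h h'.symm⟩
      refine ⟨(i, j), ?_⟩
      rw [Polynomial.map_mul, Polynomial.map_sub, Polynomial.map_sub, map_X, map_C, map_C,
        rootMultiplicity_mul (mul_ne_zero (X_sub_C_ne_zero _) (X_sub_C_ne_zero _)),
        rootMultiplicity_X_sub_C_self, rootMultiplicity_X_sub_C,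
        if_neg (fun h => hj (hinj h).symm)]
      exact odd_one) (DD S)
  refine h.subset ?_
  intro t ht q
  obtain ⟨δ, hδ, y, hy⟩ := ht q
  refine ⟨δ, hδ, y, ?_⟩
  rw [eval_mul, eval_sub, eval_sub, eval_X, eval_C, eval_C]
  exact hy

/-- all configurations -/
theorem all_finite (S : Finset ℕ) : (⋃ l ∈ {l : Fin 5 → ℚ | Function.Injective l ∧
    ∀ i, l i = 0 ∨ l i = 1 ∨ (l i ∈ Pm (Gam S) ∧ 1 - l i ∈ Pm (Gam S))}, TL S l).Finite := by
  have h1 : ({0, 1} ∪ {x : ℚ | x ∈ Pm (Gam S) ∧ 1 - x ∈ Pm (Gam S)}).Finite :=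
    (Set.toFinite _).union (unit_two S)
  have h2 : {l : Fin 5 → ℚ | Function.Injective l ∧
      ∀ i, l i = 0 ∨ l i = 1 ∨ (l i ∈ Pm (Gam S) ∧ 1 - l i ∈ Pm (Gam S))}.Finite := by
    refine (Set.Finite.pi' fun _ => h1).subset ?_
    rintro l ⟨-, hl⟩ i
    rcases hl i with h | h | h
    · exact Or.inl (Or.inl h)
    · exact Or.inl (Or.inr h)
    · exact Or.inr h
  exact h2.biUnion fun l hl => TL_finite S hl.1

/-- the conditions on `x` -/
def Cond (S : Finset ℕ) (e : Fin 5 → ℤ) (x : ℚ) : Prop :=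
  ∀ i, ∃ δ z : ℤ, δ.natAbs ≤ PS S ∧ x.num - e i * x.den = δ * z ^ 2

/-- **The uniform bound.** -/
theorem unif (S : Finset ℕ) : ∃ B : ℕ, ∀ e : Fin 5 → ℤ, (∀ i j, i ≠ j → Sm S (e i - e j)) →
    {x : ℚ | Cond S e x}.encard ≤ B := by
  classical
  obtain ⟨T, hT⟩ : ∃ T : Finset ℚ, (T : Set ℚ) = _ := ⟨(all_finite S).toFinset,
    (all_finite S).coe_toFinset⟩
  refine ⟨T.card, fun e he => ?_⟩
  have hq : Sm S (e 1 - e 0) := he 1 0 (by decide)
  have hq0 : ((e 1 - e 0 : ℤ) : ℚ) ≠ 0 := by exact_mod_cast hq.1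
  have hsub : {x : ℚ | Cond S e x} ⊆
      (fun t : ℚ => (e 0 : ℚ) + ((e 1 - e 0 : ℤ) : ℚ) * t) '' (T : Set ℚ) := by
    intro x hx
    refine ⟨(x - e 0) / ((e 1 - e 0 : ℤ) : ℚ), ?_, by
      show (e 0 : ℚ) + ((e 1 - e 0 : ℤ) : ℚ) * ((x - e 0) / ((e 1 - e 0 : ℤ) : ℚ)) = x
      rw [mul_div_cancel₀ _ hq0]
      ring⟩
    rw [hT]
    obtain ⟨l, hl⟩ : ∃ l : Fin 5 → ℚ, l = fun i => ((e i - e 0 : ℤ) : ℚ) / ((e 1 - e 0 : ℤ) : ℚ) :=
      ⟨_, rfl⟩
    have hli : ∀ i, l i = ((e i - e 0 : ℤ) : ℚ) / ((e 1 - e 0 : ℤ) : ℚ) := fun i => by rw [hl]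
    refine Set.mem_biUnion (x := l) ⟨?_, ?_⟩ ?_
    · intro i j hij
      rw [hli, hli, div_left_inj' hq0] at hij
      by_contra hne
      apply (he i j hne).1
      have : e i - e 0 = e j - e 0 := by exact_mod_cast hij
      omega
    · intro i
      by_cases h0 : i = 0
      · left
        rw [hli, h0, sub_self, Int.cast_zero, zero_div]
      by_cases h1 : i = 1
      · right; left
        rw [hli, h1, div_self hq0]
      right; right
      constructor
      · rw [hli]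
        exact pm_div (pm_int (he i 0 h0)) (pm_int hq)
      · have e1 : 1 - l i = ((e 1 - e i : ℤ) : ℚ) / ((e 1 - e 0 : ℤ) : ℚ) := by
          rw [hli, eq_div_iff hq0, sub_mul, div_mul_cancel₀ _ hq0]
          push_cast
          ring
        rw [e1]
        exact pm_div (pm_int (he 1 i (fun h => h1 h.symm))) (pm_int hq)
    · intro q
      obtain ⟨δ, z, hδ, h1⟩ := hx q.1
      obtain ⟨δ', z', hδ', h2⟩ := hx q.2
      have hden : (x.den : ℚ) ≠ 0 := by exact_mod_cast x.den_ne_zero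
      have key : ∀ (i : Fin 5) (δ z : ℤ), x.num - e i * x.den = δ * z ^ 2 →
          (x - e 0) / ((e 1 - e 0 : ℤ) : ℚ) - l i =
            (δ * z ^ 2 : ℚ) / (x.den * ((e 1 - e 0 : ℤ) : ℚ)) := by
        intro i δ z h
        have h' : (x.num : ℚ) - e i * x.den = δ * z ^ 2 := by exact_mod_cast h
        have hx' : x * x.den = x.num := by
          rw [Rat.mul_den_eq_num]
        rw [hli, ← h', ← hx', div_sub_div_same, div_eq_div_iff hq0 (mul_ne_zero hden hq0)]
        push_cast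
        ring
      refine ⟨(δ : ℚ) * δ', DD_mem S hδ hδ', (z * z' : ℚ) / (x.den * ((e 1 - e 0 : ℤ) : ℚ)), ?_⟩
      rw [key q.1 δ z h1, key q.2 δ' z' h2]
      field_simp
  refine (Set.encard_le_encard hsub).trans ((Set.encard_image_le _ _).trans ?_)
  rw [Set.encard_coe_eq_coe_finsetCard]

end Pool.Agent.W2helper7.FA
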