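import Pool.Agent.W2helper7.FA.EvenT
import Pool.Agent.W2helper7.FA.Cyc

/-!
# A fixed part of the branch divisor, not necessarily rational
-/

set_option autoImplicit false

namespace Pool.Agent.W2helper7.FA

open Polynomial Finset Pool.Agent.N449.SP Pool.Agent.W2helper6.HE

/-- modulo every prime outside `S` the polynomials `f` and `g` have no common zero on the projective
line, where a polynomial of odd degree is considered to vanish at infinity -/
def ApartPoly (S : Finset ℕ) (f g : ℤ[X]) : Prop := ∀ p : ℕ, p.Prime → p ∉ S →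
  (∀ a : ℤ, ¬ ((p : ℤ) ∣ f.eval a ∧ (p : ℤ) ∣ g.eval a)) ∧
  ¬ (((p : ℤ) ∣ f.leadingCoeff ∨ Odd f.natDegree) ∧ ((p : ℤ) ∣ g.leadingCoeff ∨ Odd g.natDegree))

/-- the value of a polynomial at a rational number -/
lemma val_form (f : ℤ[X]) (x : ℚ) :
    val f x * (x.den : ℚ) ^ f.natDegree = ((form f f.natDegree x.num x.den : ℤ) : ℚ) := by
  have hden : (x.den : ℚ) ≠ 0 := by exact_mod_cast x.den_ne_zero
  have h1 : ((form f f.natDegree x.num (x.den : ℤ) : ℤ) : ℚ) =
      form f f.natDegree ((x.num : ℤ) : ℚ) (((x.den : ℕ) : ℤ) : ℚ) :=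
    (form_map (Int.castRingHom ℚ) f f.natDegree x.num (x.den : ℤ)).symm
  rw [h1]
  unfold val form
  rw [eval₂_eq_sum_range, sum_mul]
  refine sum_congr rfl fun i hi => ?_
  have hi' : i ≤ f.natDegree := by
    have := mem_range.1 hi
    omega
  have h2 : (x.den : ℚ) ^ f.natDegree = (x.den : ℚ) ^ i * (x.den : ℚ) ^ (f.natDegree - i) := by
    rw [← pow_add]
    congr 1
    omega
  have h3 : x ^ i * (x.den : ℚ) ^ i = ((x.num : ℤ) : ℚ) ^ i := by
    rw [← mul_pow, Rat.mul_den_eq_num]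
  rw [h2, eq_intCast, Int.cast_natCast, ← h3]
  ring

/-- the leading term -/
lemma form_lead {p : ℕ} (hp : p.Prime) {f : ℤ[X]} {u w : ℤ} (huw : IsCoprime u w)
    (hw : (p : ℤ) ∣ w) (h : (p : ℤ) ∣ form f f.natDegree u w) : (p : ℤ) ∣ f.leadingCoeff := by
  have hpp := Nat.prime_iff_prime_int.1 hp
  unfold form at h
  rw [sum_range_succ, Nat.sub_self, pow_zero, mul_one] at h
  have h1 : (p : ℤ) ∣ ∑ k ∈ range f.natDegree, ((f.coeff k : ℤ)) * u ^ k * w ^ (f.natDegree - k) := by
    apply dvd_sum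
    intro k hk
    have := mem_range.1 hk
    exact dvd_mul_of_dvd_right (dvd_pow hw (by omega)) _
  have h2 : (p : ℤ) ∣ f.coeff f.natDegree * u ^ f.natDegree := by
    have := (dvd_add_right h1).1 h
    simpa using this
  rcases hpp.dvd_or_dvd h2 with h3 | h3
  · exact h3
  · exfalso
    have h4 := hpp.dvd_of_dvd_pow h3
    obtain ⟨a, b, hab⟩ := huw
    have h6 : (p : ℤ) ∣ 1 := by
      rw [← hab]
      exact dvd_add (dvd_mul_of_dvd_right h4 _) (dvd_mul_of_dvd_right hw _)
    exact hpp.not_isUnit (isUnit_of_dvd_one h6)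

/-- a common zero modulo `p` -/
lemma common {p : ℕ} (hp : p.Prime) {f g : ℤ[X]} {u w : ℤ} (hw : ¬ (p : ℤ) ∣ w)
    (hf : (p : ℤ) ∣ form f f.natDegree u w) (hg : (p : ℤ) ∣ form g g.natDegree u w) :
    ∃ a : ℤ, (p : ℤ) ∣ f.eval a ∧ (p : ℤ) ∣ g.eval a := by
  have : Fact p.Prime := ⟨hp⟩
  have z : ∀ a : ℤ, ((a : ℤ) : ZMod p) = 0 ↔ (p : ℤ) ∣ a := fun a =>
    ZMod.intCast_zmod_eq_zero_iff_dvd a p
  have hw' : (w : ZMod p) ≠ 0 := fun h => hw ((z _).1 h)
  obtain ⟨a, ha⟩ := ZMod.intCast_surjective ((u : ZMod p) / (w : ZMod p))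
  have hu : (u : ZMod p) = w * (a : ZMod p) := by
    rw [ha, mul_div_cancel₀ _ hw']
  have key : ∀ q : ℤ[X], (p : ℤ) ∣ form q q.natDegree u w → (p : ℤ) ∣ q.eval a := by
    intro q hq
    have h1 := (z _).2 hq
    have h2 : ((form q q.natDegree u w : ℤ) : ZMod p) = form q q.natDegree (u : ZMod p) (w : ZMod p) :=
      (form_map (Int.castRingHom (ZMod p)) q q.natDegree u w).symm
    rw [h2, hu] at h1
    have h3 : form q q.natDegree ((w : ZMod p) * a) (w : ZMod p) =
        (w : ZMod p) ^ q.natDegree * form q q.natDegree (a : ZMod p) 1 := by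
      rw [← form_smul, mul_one]
    rw [h3] at h1
    have h4 := (mul_eq_zero.1 h1).resolve_left (pow_ne_zero _ hw')
    have h5 : form q q.natDegree (a : ZMod p) 1 = ((q.eval a : ℤ) : ZMod p) := by
      have h6 := Polynomial.eval₂_at_apply (p := q) (Int.castRingHom (ZMod p)) a
      rw [eq_intCast, eq_intCast] at h6
      rw [← h6, eval₂_eq_sum_range]
      unfold form
      refine sum_congr rfl fun i _ => ?_
      rw [one_pow, mul_one, eq_intCast]
    rw [h5] at h4
    exact (z _).1 h4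
  exact ⟨a, key f hf, key g hg⟩

/-- the values of `f` have even valuations outside `S` -/
theorem val_sel {S : Finset ℕ} {f g : ℤ[X]} (hA : ApartPoly S f g) {d : ℤ} (hd : Sm S d) {N m : ℕ}
    (hN : Even N) (hN0 : 0 < N) (hm : Odd m) {x y : ℚ}
    (hP : (d : ℚ) * y ^ N = val f x ^ m * val g x) (hf : val f x ≠ 0) : Sel S 2 (val f x) := by
  refine ⟨hf, fun p hp hpS => ?_⟩
  have : Fact p.Prime := ⟨hp⟩
  obtain ⟨h1, h2⟩ := hA p hp hpS
  have hden : (x.den : ℚ) ≠ 0 := by exact_mod_cast x.den_ne_zero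
  have hcop : IsCoprime x.num (x.den : ℤ) := Int.isCoprime_iff_gcd_eq_one.2 x.reduced
  have hint : ∀ z : ℤ, ¬ (p : ℤ) ∣ z → (z : ℚ) ≠ 0 ∧ padicValRat p (z : ℚ) = 0 := by
    intro z hz
    refine ⟨?_, ?_⟩
    · rintro h0
      have : z = 0 := by exact_mod_cast h0
      exact hz (this ▸ dvd_zero _)
    · rw [padicValRat.of_int, padicValInt.eq_zero_of_not_dvd hz, Nat.cast_zero]
  have hdu := hint d (fun h => hpS (hd.2 p hp h))
  -- the valuation of a value whose form is not divisible by `p`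
  have hv : ∀ q : ℤ[X], ¬ (p : ℤ) ∣ form q q.natDegree x.num (x.den : ℤ) →
      val q x ≠ 0 ∧ padicValRat p (val q x) = -(q.natDegree * padicValRat p (x.den : ℚ)) := by
    intro q hq
    obtain ⟨h3, h4⟩ := hint _ hq
    rw [← val_form] at h3 h4
    have h5 : val q x ≠ 0 := left_ne_zero_of_mul h3
    refine ⟨h5, ?_⟩
    rw [padicValRat.mul h5 (pow_ne_zero _ hden), padicValRat.pow] at h4
    linarith
  -- if the valuation of `g` is even
  have hg : val g x ≠ 0 → Even (padicValRat p (val g x)) → (2 : ℤ) ∣ padicValRat p (val f x) := by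
    intro h3 h4
    have hy : y ≠ 0 := by
      rintro rfl
      rw [zero_pow hN0.ne', mul_zero] at hP
      exact mul_ne_zero (pow_ne_zero _ hf) h3 hP.symm
    have hval := congrArg (padicValRat p) hP
    rw [padicValRat.mul hdu.1 (pow_ne_zero _ hy), padicValRat.pow,
      padicValRat.mul (pow_ne_zero _ hf) h3, padicValRat.pow, hdu.2, zero_add] at hval
    have h5 : Even ((m : ℤ) * padicValRat p (val f x)) := by
      have e : (m : ℤ) * padicValRat p (val f x) = N * padicValRat p y - padicValRat p (val g x) := by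
        linarith
      rw [e]
      exact (Int.even_mul.2 (Or.inl (by exact_mod_cast hN))).sub h4
    rcases Int.even_mul.1 h5 with h6 | h6
    · exfalso
      have h7 : Even m := by exact_mod_cast h6
      exact (Nat.not_even_iff_odd.2 hm) h7
    · exact even_iff_two_dvd.1 h6
  by_cases hw : (p : ℤ) ∣ (x.den : ℤ)
  · by_cases hc : (p : ℤ) ∣ g.leadingCoeff ∨ Odd g.natDegree
    · have h3 : ¬ ((p : ℤ) ∣ f.leadingCoeff ∨ Odd f.natDegree) := fun h => h2 ⟨h, hc⟩
      push Not at h3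
      obtain ⟨-, h5⟩ := hv f (fun h => h3.1 (form_lead hp hcop hw h))
      rw [h5]
      obtain ⟨k, hk⟩ := Nat.not_odd_iff_even.1 (by simpa using h3.2)
      rw [hk]
      refine ⟨-(k * padicValRat p (x.den : ℚ)), ?_⟩
      push_cast
      ring
    · push Not at hc
      obtain ⟨h4, h5⟩ := hv g (fun h => hc.1 (form_lead hp hcop hw h))
      apply hg h4
      rw [h5]
      obtain ⟨k, hk⟩ := Nat.not_odd_iff_even.1 (by simpa using hc.2)
      rw [hk]
      refine ⟨-(k * padicValRat p (x.den : ℚ)), ?_⟩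
      push_cast
      ring
  · have hdz : padicValRat p (x.den : ℚ) = 0 := by
      have := (hint _ hw).2
      rwa [Int.cast_natCast] at this
    by_cases hpf : (p : ℤ) ∣ form f f.natDegree x.num (x.den : ℤ)
    · have hpg : ¬ (p : ℤ) ∣ form g g.natDegree x.num (x.den : ℤ) := by
        intro h
        obtain ⟨a, ha⟩ := common hp hw hpf h
        exact h1 a ha
      obtain ⟨h4, h5⟩ := hv g hpg
      apply hg h4
      rw [h5, hdz, mul_zero, neg_zero]
      exact Even.zero
    · rw [(hv f hpf).2, hdz, mul_zero, neg_zero]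
      exact dvd_zero _

/-- finiteness -/
theorem fix_fin (S : Finset ℕ) {f : ℤ[X]} (hf : f ≠ 0)
    (h6 : 6 ≤ (oddRoots (fun _ : Unit => f)).ncard + f.natDegree % 2) :
    {x : ℚ | ∃ δ ∈ TT S 2, ∃ y, val f x = δ * y ^ 2}.Finite := by
  obtain ⟨c, hc⟩ : ∃ c : Unit → ℚ, c = fun _ => 1 := ⟨_, rfl⟩
  have hc0 : ∀ k, c k ≠ 0 := fun k => by rw [hc]; exact one_ne_zero
  have hev : ∀ x, (pp c (fun _ => f) ()).eval x = val f x := fun x => by
    rw [pp_eval, hc, one_mul]
  rcases Nat.even_or_odd f.natDegree with he | ho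
  · have h := fin_evenT (κ := Unit) (pp c (fun _ => f)) (pp_ne hc0 (fun _ => hf))
      (fun k => by rw [pp_deg hc0]; exact he) (oddRoots (fun _ : Unit => f)) (by
        have := Nat.even_iff.1 he
        omega) (by
      rintro w ⟨k, hk⟩
      exact ⟨k, by rw [pp_mult hc0 (fun _ => hf)]; exact hk⟩) (TT S 2)
    refine h.subset ?_
    rintro x ⟨δ, hδ, y, hy⟩ k
    exact ⟨δ, hδ, y, by rw [hev]; exact hy⟩
  · have h := finite_values ℂ (pp c (fun _ : Unit => f)) (pp_ne hc0 (fun _ => hf))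
      ⟨(), by rw [pp_deg hc0]; exact ho⟩ (by
      have h7 : (oddRoots (fun _ : Unit => f)).ncard ≤ (OddRoots ℂ (pp c (fun _ : Unit => f))).ncard := by
        apply Set.ncard_le_ncard
        · rintro w ⟨k, hk⟩
          exact ⟨k, by rw [pp_mult hc0 (fun _ => hf)]; exact hk⟩
        · refine (oddRoots_finite (f := fun _ : Unit => f) (fun _ => hf)).subset ?_
          rintro w ⟨k, hk⟩
          exact ⟨k, by rw [pp_mult hc0 (fun _ => hf)] at hk; exact hk⟩
      omega) (TT S 2)
    refine h.subset ?_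
    rintro x ⟨δ, hδ, y, hy⟩ k
    exact ⟨δ, hδ, y, by rw [hev]; exact hy⟩

/-- **A fixed part of the branch divisor.** -/
theorem fixed (S : Finset ℕ) (f : ℤ[X]) (hf : f ≠ 0)
    (h6 : 6 ≤ (oddRoots (fun _ : Unit => f)).ncard + f.natDegree % 2) : ∃ E : Finset ℚ,
    ∀ (g : ℤ[X]) (d : ℤ) (N m : ℕ), ApartPoly S f g → Sm S d → Even N → 0 < N → Odd m →
      ∀ x y : ℚ, (d : ℚ) * y ^ N = val f x ^ m * val g x → x ∈ E := by
  classical
  have hz : {x : ℚ | val f x = 0}.Finite := by
    refine (finite_setOfPred_isRoot (map_ne (R := ℚ) hf)).subset ?_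
    intro x hx
    show ((f.map (Int.castRingHom ℚ))).IsRoot x
    rw [IsRoot.def, eval_map]
    exact hx
  have hfin := (fix_fin S hf h6).union hz
  refine ⟨hfin.toFinset, fun g d N m hA hd hN hN0 hm x y hP => ?_⟩
  rw [Set.Finite.mem_toFinset]
  by_cases h0 : val f x = 0
  · exact Or.inr h0
  · exact Or.inl ((val_sel hA hd hN hN0 hm hP h0).class (by norm_num))

end Pool.Agent.W2helper7.FA
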