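import Pool.Agent.W2helper7.FA.TM

/-!
# Moving the point at infinity to zero, in a family of irreducible polynomials
-/

set_option autoImplicit false

namespace Pool.Agent.W2helper7.FA

open Polynomial Finset Pool.Agent.W262.TW

section inv

variable {F : Type*} [Field F]

/-- the inverse of `M z` -/
noncomputable def Mi (z : F) (p : F[X]) : F[X] := taylor (-z) p.reverse

lemma Mi_mul (z : F) (p q : F[X]) : Mi z (p * q) = Mi z p * Mi z q := by
  unfold Mi
  rw [reverse_mul_of_domain, taylor_mul]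

lemma rev_rev {p : F[X]} (h : p.coeff 0 ≠ 0) : p.reverse.reverse = p := by
  have h1 : p.natTrailingDegree = 0 := natTrailingDegree_eq_zero.2 (Or.inr h)
  have h2 : p.reverse.natDegree = p.natDegree := by
    rw [reverse_natDegree, h1, Nat.sub_zero]
  unfold reverse at *
  rw [h2]
  exact reflect_reflect

lemma Mi_M (z : F) {p : F[X]} (h : p.eval z ≠ 0) : Mi z (M z p) = p := by
  unfold Mi M
  rw [rev_rev (by rw [taylor_coeff_zero]; exact h), taylor_taylor, neg_add_cancel, taylor_zero]

lemma M_coeff0 (z : F) (p : F[X]) : (M z p).coeff 0 = p.leadingCoeff := by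
  unfold M
  rw [coeff_zero_reverse]
  exact leadingCoeff_taylor z p

lemma M_irr (z : F) {p : F[X]} (h : p.eval z ≠ 0) (hp : Irreducible p) : Irreducible (M z p) := by
  have hp0 : p ≠ 0 := hp.ne_zero
  have hdeg : (M z p).natDegree = p.natDegree := by
    rw [M_deg, rootMultiplicity_eq_zero (fun h' => h h'), Nat.sub_zero]
  constructor
  · intro hu
    have h1 := natDegree_eq_zero_of_isUnit hu
    rw [hdeg] at h1
    exact absurd hp.natDegree_pos (by omega)
  · intro a b hab
    have hab0 : a.coeff 0 * b.coeff 0 ≠ 0 := by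
      rw [← mul_coeff_zero, ← hab, M_coeff0]
      exact leadingCoeff_ne_zero.2 hp0
    have hd : ∀ q : F[X], q.coeff 0 ≠ 0 → IsUnit (Mi z q) → IsUnit q := by
      intro q hq hu
      have h1 := natDegree_eq_zero_of_isUnit hu
      unfold Mi at h1
      rw [natDegree_taylor, reverse_natDegree,
        natTrailingDegree_eq_zero.2 (Or.inr hq), Nat.sub_zero] at h1
      rw [eq_C_of_natDegree_eq_zero h1]
      exact isUnit_C.2 (IsUnit.mk0 _ hq)
    have h2 : p = Mi z a * Mi z b := by rw [← Mi_mul, ← hab, Mi_M z h]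
    rcases hp.isUnit_or_isUnit h2 with h3 | h3
    · exact Or.inl (hd a (left_ne_zero_of_mul hab0) h3)
    · exact Or.inr (hd b (right_ne_zero_of_mul hab0) h3)

lemma M_ass (z : F) {p q : F[X]} (hp : p.eval z ≠ 0) (hq : q.eval z ≠ 0)
    (h : Associated (M z p) (M z q)) : Associated p q := by
  obtain ⟨u, hu⟩ := h
  have h1 : p * Mi z (u : F[X]) = q := by
    rw [← Mi_M z hp, ← Mi_mul, hu, Mi_M z hq]
  have h2 : IsUnit (Mi z (u : F[X])) := by
    have h3 : Mi z (u : F[X]) * Mi z ((u⁻¹ : (F[X])ˣ) : F[X]) = 1 := by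
      rw [← Mi_mul, Units.mul_inv]
      unfold Mi
      rw [show (1 : F[X]) = C 1 from (map_one C).symm, reverse_C, taylor_C]
    exact IsUnit.of_mul_eq_one _ h3
  exact ⟨h2.unit, h1⟩

end inv

/-- the transformed polynomial, over the integers -/
noncomputable def MZ (c : ℤ) (f : ℤ[X]) : ℤ[X] := (taylor c f).reverse

lemma MZ_map (c : ℤ) (f : ℤ[X]) :
    (MZ c f).map (Int.castRingHom ℚ) = M (c : ℚ) (f.map (Int.castRingHom ℚ)) := by
  unfold MZ M
  have h : (Int.castRingHom ℚ) c = (c : ℚ) := rfl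
  rw [← h, ← map_taylor]
  unfold reverse
  rw [natDegree_map_eq_of_injective (RingHom.injective_int (Int.castRingHom ℚ)), reflect_map]

lemma MZ_deg (c : ℤ) {f : ℤ[X]} (h : f.eval c ≠ 0) : (MZ c f).natDegree = f.natDegree := by
  unfold MZ
  rw [reverse_natDegree, natTrailingDegree_eq_zero.2 (Or.inr (by rw [taylor_coeff_zero]; exact h)),
    Nat.sub_zero, natDegree_taylor]

/-- exchanging the variables -/
lemma hom_reverse {g : ℤ[X]} (h : g.coeff 0 ≠ 0) {R : Type*} [CommRing R] (t s : R) :
    hom g.reverse t s = hom g s t := by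
  have hd : g.reverse.natDegree = g.natDegree := by
    rw [reverse_natDegree, natTrailingDegree_eq_zero.2 (Or.inr h), Nat.sub_zero]
  unfold hom
  rw [hd, ← sum_range_reflect]
  refine sum_congr rfl fun i hi => ?_
  have hi' : i ≤ g.natDegree := by
    have := mem_range.1 hi
    omega
  rw [coeff_reverse, show g.natDegree + 1 - 1 - i = g.natDegree - i by omega,
    revAt_le (by omega), show g.natDegree - (g.natDegree - i) = i by omega]
  ring

lemma hom_zero (f : ℤ[X]) (x : ℚ) : hom f x 0 = (f.leadingCoeff : ℚ) * x ^ f.natDegree := by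
  unfold hom
  rw [sum_range_succ, sum_eq_zero (fun i hi => by
    rw [zero_pow (by have := mem_range.1 hi; omega), mul_zero]), Nat.sub_self, pow_zero, mul_one,
    zero_add]
  rfl

lemma hom_taylor (c : ℤ) (f : ℤ[X]) (s t : ℚ) :
    hom (taylor c f) s t = hom f ((c : ℚ) * t + s) t := by
  by_cases ht : t = 0
  · rw [ht, mul_zero, zero_add, hom_zero, hom_zero, leadingCoeff_taylor, natDegree_taylor]
  · rw [hom_eval _ _ _ ht, hom_eval _ _ _ ht, natDegree_taylor]
    congr 1
    rw [map_taylor, taylor_eval]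
    congr 1
    rw [add_div, mul_div_cancel_right₀ _ ht, add_comm]
    rfl

/-- values -/
lemma hom_MZ (c : ℤ) {f : ℤ[X]} (h : f.eval c ≠ 0) (t s : ℚ) :
    hom (MZ c f) t s = hom f ((c : ℚ) * t + s) t := by
  unfold MZ
  rw [hom_reverse (by rw [taylor_coeff_zero]; exact h), hom_taylor]

lemma hom_MZ_int (c : ℤ) {f : ℤ[X]} (h : f.eval c ≠ 0) (t s : ℤ) :
    hom (MZ c f) t s = hom f (c * t + s) t := by
  have h1 := hom_MZ c h (t : ℚ) (s : ℚ)
  have e1 : hom (MZ c f) (t : ℚ) (s : ℚ) = ((hom (MZ c f) t s : ℤ) : ℚ) :=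
    hom_map' (Int.castRingHom ℚ) (MZ c f) t s
  have e2 : hom f ((c : ℚ) * t + s) (t : ℚ) = ((hom f (c * t + s) t : ℤ) : ℚ) := by
    have := hom_map' (Int.castRingHom ℚ) f (c * t + s) t
    rw [← show hom f ((Int.castRingHom ℚ) (c * t + s)) ((Int.castRingHom ℚ) t) =
      hom f ((c : ℚ) * t + s) (t : ℚ) by simp]
    exact this
  rw [e1, e2] at h1
  exact_mod_cast h1

/-- scaling by `-1` -/
lemma hom_neg (f : ℤ[X]) (x w : ℤ) : hom f (-x) (-w) = (-1) ^ f.natDegree * hom f x w := by
  unfold hom
  rw [mul_sum]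
  refine sum_congr rfl fun i hi => ?_
  have hi' : i ≤ f.natDegree := by
    have := mem_range.1 hi
    omega
  have h1 : (-1 : ℤ) ^ f.natDegree = (-1) ^ i * (-1) ^ (f.natDegree - i) := by
    rw [← pow_add]
    congr 1
    omega
  rw [h1, neg_pow x, neg_pow w]
  ring

section family

variable {K : Type} [Fintype K] [DecidableEq K]

/-- the transformed family; the point at infinity becomes the zero of `X` -/
noncomputable def fam (f : K → ℤ[X]) (c : ℤ) : Option K → ℤ[X]
  | none => X
  | some k => MZ c (f k)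

/-- the degrees -/
def Dg (f : K → ℤ[X]) : Option K → ℕ
  | none => 1
  | some k => (f k).natDegree

/-- the forms; `w` vanishes at infinity -/
noncomputable def Fm (f : K → ℤ[X]) : Option K → ℤ → ℤ → ℤ
  | none => fun _ w => w
  | some k => fun x w => hom (f k) x w

/-- the zero of a linear form -/
def Pz (f : K → ℤ[X]) : Option K → ℤ × ℤ
  | none => (1, 0)
  | some i => (-(f i).coeff 0, (f i).coeff 1)

/-- the values -/
noncomputable def vl (f : K → ℤ[X]) (i l : Option K) : ℤ := Fm f l (Pz f i).1 (Pz f i).2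

omit [Fintype K] [DecidableEq K] in
lemma fam_deg {f : K → ℤ[X]} {c : ℤ} (hc : ∀ k, (f k).eval c ≠ 0) (l : Option K) :
    (fam f c l).natDegree = Dg f l := by
  cases l with
  | none => exact natDegree_X
  | some k => exact MZ_deg c (hc k)

lemma hom_X {R : Type*} [CommRing R] (x w : R) : hom (X : ℤ[X]) x w = x := by
  unfold hom
  rw [natDegree_X, sum_range_succ, sum_range_one]
  simp

/-- the sign -/
def sg : Option K → ℤ
  | none => 1
  | some _ => -1

omit [Fintype K] [DecidableEq K] in
lemma fam_val {f : K → ℤ[X]} {c : ℤ} (hc : ∀ k, (f k).eval c ≠ 0) {i : Option K} (hi : Dg f i = 1)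
    (l : Option K) : Pool.Agent.Y488.TM.val (fam f c) i l = sg i ^ Dg f l * vl f i l := by
  unfold Pool.Agent.Y488.TM.val vl
  cases i with
  | none =>
    have e0 : (fam f c none).coeff 0 = 0 := coeff_X_zero
    have e1 : (fam f c none).coeff 1 = 1 := coeff_X_one
    rw [e0, e1, neg_zero]
    show hom (fam f c l) 0 1 = 1 ^ _ * Fm f l 1 0
    rw [one_pow, one_mul]
    cases l with
    | none => exact hom_X 0 1
    | some k =>
      show hom (MZ c (f k)) 0 1 = hom (f k) 1 0
      rw [hom_MZ_int c (hc k)]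
      congr 1
      ring
  | some i =>
    have hi : (f i).natDegree = 1 := hi
    have hcoef : ∀ n, (MZ c (f i)).coeff n = (taylor c (f i)).coeff (revAt 1 n) := by
      intro n
      unfold MZ
      rw [coeff_reverse, natDegree_taylor, hi]
    have e0 : (fam f c (some i)).coeff 0 = (f i).coeff 1 := by
      show (MZ c (f i)).coeff 0 = _
      have h1 : (f i).coeff 1 = (f i).leadingCoeff := by rw [leadingCoeff, hi]
      have h2 : (MZ c (f i)).coeff 0 = (taylor c (f i)).leadingCoeff := by
        unfold MZ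
        exact coeff_zero_reverse _
      rw [h1, h2, leadingCoeff_taylor]
    have e1 : (fam f c (some i)).coeff 1 = (f i).coeff 1 * c + (f i).coeff 0 := by
      show (MZ c (f i)).coeff 1 = _
      rw [hcoef 1, revAt_le (le_refl 1), Nat.sub_self, taylor_coeff_zero, eval_eq_sum_range, hi,
        sum_range_succ, sum_range_one]
      ring
    rw [e0, e1]
    obtain ⟨a, ha⟩ : ∃ a, a = (f i).coeff 1 := ⟨_, rfl⟩
    obtain ⟨b, hb⟩ : ∃ b, b = (f i).coeff 0 := ⟨_, rfl⟩
    show hom (fam f c l) (-(f i).coeff 1) ((f i).coeff 1 * c + (f i).coeff 0) =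
      (-1) ^ Dg f l * Fm f l (-(f i).coeff 0) ((f i).coeff 1)
    rw [← ha, ← hb]
    cases l with
    | none =>
      show hom (X : ℤ[X]) (-a) (a * c + b) = (-1) ^ 1 * a
      rw [hom_X]
      ring
    | some k =>
      show hom (MZ c (f k)) (-a) (a * c + b) = (-1) ^ (f k).natDegree * hom (f k) (-b) a
      rw [hom_MZ_int c (hc k), ← hom_neg]
      congr 1
      ring

omit [Fintype K] [DecidableEq K] in
lemma fam_irr {f : K → ℤ[X]} {c : ℤ} (hc : ∀ k, (f k).eval c ≠ 0)
    (irr : ∀ k, Irreducible ((f k).map (Int.castRingHom ℚ))) (l : Option K) :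
    Irreducible ((fam f c l).map (Int.castRingHom ℚ)) := by
  cases l with
  | none =>
    show Irreducible ((X : ℤ[X]).map (Int.castRingHom ℚ))
    rw [Polynomial.map_X]
    exact irreducible_X
  | some k =>
    show Irreducible ((MZ c (f k)).map (Int.castRingHom ℚ))
    rw [MZ_map]
    apply M_irr _ _ (irr k)
    rw [eval_map]
    have h2 := Polynomial.eval₂_at_apply (p := f k) (Int.castRingHom ℚ) c
    rw [eq_intCast, eq_intCast] at h2
    rw [h2]
    exact_mod_cast hc k

lemma ev_ne {f : ℤ[X]} {c : ℤ} (h : f.eval c ≠ 0) :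
    (f.map (Int.castRingHom ℚ)).eval (c : ℚ) ≠ 0 := by
  rw [eval_map]
  have h2 := Polynomial.eval₂_at_apply (p := f) (Int.castRingHom ℚ) c
  rw [eq_intCast, eq_intCast] at h2
  rw [h2]
  exact_mod_cast h

omit [Fintype K] [DecidableEq K] in
lemma fam_ass {f : K → ℤ[X]} {c : ℤ} (hc : ∀ k, (f k).eval c ≠ 0)
    (irr : ∀ k, Irreducible ((f k).map (Int.castRingHom ℚ)))
    (ass : ∀ k l, k ≠ l →
      ¬ Associated ((f k).map (Int.castRingHom ℚ)) ((f l).map (Int.castRingHom ℚ)))
    (k l : Option K) (hkl : k ≠ l) :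
    ¬ Associated ((fam f c k).map (Int.castRingHom ℚ)) ((fam f c l).map (Int.castRingHom ℚ)) := by
  have h0 : ∀ k : K, ((MZ c (f k)).map (Int.castRingHom ℚ)).coeff 0 ≠ 0 := by
    intro k
    rw [MZ_map, M_coeff0]
    exact leadingCoeff_ne_zero.2 (irr k).ne_zero
  have hX : ∀ k : K, ¬ Associated ((X : ℤ[X]).map (Int.castRingHom ℚ))
      ((MZ c (f k)).map (Int.castRingHom ℚ)) := by
    intro k h
    rw [Polynomial.map_X] at h
    exact h0 k (X_dvd_iff.1 h.dvd)
  cases k with
  | none =>
    cases l with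
    | none => exact absurd rfl hkl
    | some l => exact hX l
  | some k =>
    cases l with
    | none => exact fun h => hX k h.symm
    | some l =>
      intro h
      have h : Associated ((MZ c (f k)).map (Int.castRingHom ℚ))
        ((MZ c (f l)).map (Int.castRingHom ℚ)) := h
      rw [MZ_map, MZ_map] at h
      exact ass k l (fun h' => hkl (by rw [h'])) (M_ass _ (ev_ne (hc k)) (ev_ne (hc l)) h)

end family

end Pool.Agent.W2helper7.FA
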