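import Pool.Agent.W2helper6.HE.Poly

/-!
# Moving a point to infinity

`M z p` is the polynomial `t ^ n * p (z + 1 / t)`, `n = deg p`.
-/

set_option autoImplicit false

namespace Pool.Agent.W2helper7.FA

open Polynomial

section

variable {F : Type*} [Field F]

/-- `t ^ n * p (z + 1 / t)`, `n = deg p` -/
noncomputable def M (z : F) (p : F[X]) : F[X] := (taylor z p).reverse

lemma taylor_nd (z : F) (p : F[X]) : (taylor z p).natDegree = p.natDegree :=
  natDegree_taylor p z

lemma M_eval (z : F) (p : F[X]) {x : F} (hx : x ≠ z) :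
    (M z p).eval (x - z)⁻¹ * (x - z) ^ p.natDegree = p.eval x := by
  have h0 : x - z ≠ 0 := sub_ne_zero.2 hx
  let _ : Invertible (x - z) := invertibleOfNonzero h0
  have h1 := eval₂_reverse_mul_pow (RingHom.id F) (x - z) (taylor z p)
  rw [invOf_eq_inv, taylor_nd, eval₂_id, eval₂_id, taylor_eval, sub_add_cancel] at h1
  exact h1

lemma M_mul (z : F) (p q : F[X]) : M z (p * q) = M z p * M z q := by
  unfold M
  rw [taylor_mul, reverse_mul_of_domain]

lemma M_one (z : F) : M z (1 : F[X]) = 1 := by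
  unfold M
  have h1 : taylor z (1 : F[X]) = C 1 := by
    rw [taylor_apply, one_comp, map_one]
  rw [h1, reverse_C, map_one]

lemma M_pow (z : F) (p : F[X]) (n : ℕ) : M z (p ^ n) = M z p ^ n := by
  induction n with
  | zero => rw [pow_zero, pow_zero, M_one]
  | succ n ih => rw [pow_succ, pow_succ, M_mul, ih]

lemma M_zero (z : F) : M z (0 : F[X]) = 0 := by
  unfold M
  rw [map_zero, reverse_zero]

lemma M_ne (z : F) {p : F[X]} (hp : p ≠ 0) : M z p ≠ 0 := by
  unfold M
  rw [Ne, reverse_eq_zero]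
  intro h
  exact hp ((taylor_injective z) (by rw [h, map_zero]))

lemma M_lin {z w : F} (h : w ≠ z) : M z (X - C w : F[X]) = C (z - w) * (X - C (w - z)⁻¹) := by
  have h0 : w - z ≠ 0 := sub_ne_zero.2 h
  have h1 : taylor z (X - C w : F[X]) = X + C (z - w) := by
    rw [map_sub, taylor_X, taylor_C, C_sub]
    ring
  have h2 : (X + C (z - w) : F[X]).natDegree = 1 := natDegree_X_add_C _
  have e : C (z - w) * (X - C (w - z)⁻¹) = (X * C (z - w) + C 1 : F[X]) := by
    rw [mul_sub, ← C_mul, show (z - w) * (w - z)⁻¹ = -1 by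
      rw [← neg_sub w z, neg_mul, mul_inv_cancel₀ h0], C_neg, sub_neg_eq_add, mul_comm]
  unfold M
  rw [h1]
  ext n
  rw [coeff_reverse, h2]
  rcases n with _ | _ | n
  · rw [revAt_le (by norm_num), e]
    simp
  · rw [revAt_le (by norm_num), e]
    simp [coeff_one]
  · rw [revAt_eq_self_of_lt (by omega)]
    have e1 : (X + C (z - w) : F[X]).coeff (n + 1 + 1) = 0 :=
      coeff_eq_zero_of_natDegree_lt (by rw [h2]; omega)
    have e2 : (C (z - w) * (X - C (w - z)⁻¹) : F[X]).coeff (n + 1 + 1) = 0 := by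
      rw [coeff_C_mul, coeff_eq_zero_of_natDegree_lt (by rw [natDegree_X_sub_C]; omega), mul_zero]
    rw [e1, e2]

lemma M_mult {z w : F} (h : w ≠ z) {p : F[X]} (hp : p ≠ 0) :
    (M z p).rootMultiplicity (w - z)⁻¹ = p.rootMultiplicity w := by
  have h0 : w - z ≠ 0 := sub_ne_zero.2 h
  have h0' : z - w ≠ 0 := sub_ne_zero.2 (Ne.symm h)
  obtain ⟨q, hq, hnd⟩ := exists_eq_pow_rootMultiplicity_mul_and_not_dvd p hp w
  obtain ⟨n, hn⟩ : ∃ n, n = p.rootMultiplicity w := ⟨_, rfl⟩
  rw [← hn] at hq ⊢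
  have hq0 : q ≠ 0 := by
    rintro rfl
    exact hnd (dvd_zero _)
  have hqw : q.eval w ≠ 0 := by
    intro h1
    exact hnd (dvd_iff_isRoot.2 h1)
  have hMq : (M z q).rootMultiplicity (w - z)⁻¹ = 0 := by
    apply rootMultiplicity_eq_zero
    intro h1
    apply hqw
    have h2 := M_eval z q h
    rw [IsRoot.def.1 h1, zero_mul] at h2
    exact h2.symm
  have e1 : M z p = (C ((z - w) ^ n) * M z q) * (X - C (w - z)⁻¹) ^ n := by
    rw [hq, M_mul, M_pow, M_lin h, mul_pow, ← C_pow]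
    ring
  have hc : C ((z - w) ^ n) ≠ (0 : F[X]) := by
    rw [Ne, C_eq_zero]
    exact pow_ne_zero _ h0'
  rw [e1, rootMultiplicity_mul_X_sub_C_pow (mul_ne_zero hc (M_ne z hq0)),
    rootMultiplicity_mul (mul_ne_zero hc (M_ne z hq0)), rootMultiplicity_C, hMq]
  omega

lemma M_deg (z : F) (p : F[X]) : (M z p).natDegree = p.natDegree - p.rootMultiplicity z := by
  unfold M
  rw [reverse_natDegree, taylor_nd, rootMultiplicity_eq_natTrailingDegree]
  rfl

lemma reverse_map {F' : Type*} [Field F'] (φ : F →+* F') (p : F[X]) :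
    (p.map φ).reverse = p.reverse.map φ := by
  unfold reverse
  rw [natDegree_map, reflect_map]

lemma M_map {F' : Type*} [Field F'] (φ : F →+* F') (z : F) (p : F[X]) :
    (M z p).map φ = M (φ z) (p.map φ) := by
  unfold M
  rw [← map_taylor, reverse_map]

end

open NumberField Pool.Agent.W2helper6.HE

lemma issq_mul {K : Type*} [Field K] {t : K} (n : ℕ) {u v : K} (hv : v ≠ 0)
    (h : u * v ^ (2 * n) = t) (y s : K) (hy : t = s * y ^ 2) : u = s * (y * (v ^ n)⁻¹) ^ 2 := by
  have h1 : v ^ n ≠ 0 := pow_ne_zero _ hv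
  have h2 : v ^ (2 * n) = (v ^ n) ^ 2 := by rw [← pow_mul, mul_comm n 2]
  rw [h2, hy] at h
  rw [mul_pow, inv_pow, ← mul_assoc, ← h, mul_assoc, mul_inv_cancel₀ (pow_ne_zero _ h1), mul_one]

/-- finiteness with a branch point `z` moved to infinity -/
theorem fin_M {K : Type} [Field K] [NumberField K] {κ : Type} [Fintype κ] (Ω : Type*)
    [Field Ω] [IsAlgClosed Ω] [Algebra K Ω] (p : κ → K[X]) (z : K) (h0 : ∀ k, p k ≠ 0)
    (hodd : ∃ k, Odd ((p k).natDegree - (p k).rootMultiplicity z)) (S : Set Ω) (h4 : 4 ≤ S.ncard)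
    (hS : ∀ w ∈ S, w ≠ algebraMap K Ω z ∧
      ∃ k, Odd (((p k).map (algebraMap K Ω)).rootMultiplicity w)) (T : Finset K) :
    {x : K | ∀ k, ∃ t ∈ T, ∃ y, (p k).eval x * (x - z) ^ (p k).natDegree = t * y ^ 2}.Finite := by
  classical
  have hfin := finite_values Ω (fun k => M z (p k)) (fun k => M_ne z (h0 k)) (by
    obtain ⟨k, hk⟩ := hodd
    exact ⟨k, by rw [M_deg]; exact hk⟩) (by
    have hinj : Set.InjOn (fun w : Ω => (w - algebraMap K Ω z)⁻¹) S := by
      intro w _ w' _ h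
      have h1 : w - algebraMap K Ω z = w' - algebraMap K Ω z := inv_injective h
      exact sub_left_injective h1
    rw [← hinj.ncard_image] at h4
    refine le_trans h4 (Set.ncard_le_ncard ?_ ?_)
    · rintro _ ⟨w, hw, rfl⟩
      obtain ⟨hwz, k, hk⟩ := hS w hw
      refine ⟨k, ?_⟩
      have hk0 : (p k).map (algebraMap K Ω) ≠ 0 :=
        (Polynomial.map_ne_zero_iff (algebraMap K Ω).injective).2 (h0 k)
      show Odd (((M z (p k)).map (algebraMap K Ω)).rootMultiplicity _)
      rw [M_map, M_mult hwz hk0]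
      exact hk
    · have : OddRoots Ω (fun k => M z (p k)) ⊆
          ⋃ k, {w : Ω | ((M z (p k)).map (algebraMap K Ω)).IsRoot w} := by
        rintro w ⟨k, hk⟩
        rw [Set.mem_iUnion]
        exact ⟨k, (Polynomial.rootMultiplicity_pos'.1 hk.pos).2⟩
      refine (Set.finite_iUnion fun k => ?_).subset this
      exact Polynomial.finite_setOfPred_isRoot
        ((Polynomial.map_ne_zero_iff (algebraMap K Ω).injective).2 (M_ne z (h0 k)))) T
  have hfin2 : ({z} ∪ (fun t : K => z + t⁻¹) ''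
      {x : K | ∀ k, ∃ t ∈ T, ∃ y, (M z (p k)).eval x = t * y ^ 2}).Finite :=
    (Set.finite_singleton z).union (hfin.image _)
  refine hfin2.subset ?_
  intro x hx
  by_cases hxz : x = z
  · exact Or.inl hxz
  refine Or.inr ⟨(x - z)⁻¹, ?_, by
    show z + ((x - z)⁻¹)⁻¹ = x
    rw [inv_inv, add_sub_cancel]⟩
  intro k
  obtain ⟨t, ht, y, hy⟩ := hx k
  have h1 := M_eval z (p k) hxz
  rw [← h1, mul_assoc, ← pow_add, ← two_mul] at hy
  exact ⟨t, ht, _, issq_mul (p k).natDegree (sub_ne_zero.2 hxz) rfl y t hy⟩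

end Pool.Agent.W2helper7.FA
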