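import Pool.Agent.W2helper7.FA.Cyc

/-!
# Five branch points, and the counting
-/

set_option autoImplicit false

namespace Pool.Agent.W2helper7.FA

open Polynomial Finset Pool.Agent.N449.SP Pool.Agent.W2helper6.HE

lemma fin4 (T : Finset ℚ) {l : Fin 4 → ℚ} (hl : Function.Injective l) :
    {t : ℚ | ∀ i, ∃ δ ∈ T, ∃ y, t - l i = δ * y ^ 2}.Finite := by
  have hinj : Function.Injective (fun i => algebraMap ℚ ℂ (l i)) :=
    (algebraMap ℚ ℂ).injective.comp hl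
  have h := finite_values ℂ (fun i => X - C (l i)) (fun i => X_sub_C_ne_zero _)
    ⟨0, by rw [natDegree_X_sub_C]; exact odd_one⟩ (by
      have h1 : (Set.range fun i => algebraMap ℚ ℂ (l i)).ncard = 4 := by
        rw [← Set.image_univ, Set.ncard_image_of_injective _ hinj, Set.ncard_univ,
          Nat.card_eq_fintype_card, Fintype.card_fin]
      refine h1.ge.trans (Set.ncard_le_ncard ?_ ?_)
      · rintro _ ⟨i, rfl⟩
        refine ⟨i, ?_⟩
        rw [Polynomial.map_sub, map_X, map_C, rootMultiplicity_X_sub_C_self]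
        exact odd_one
      · have : OddRoots ℂ (fun i => (X - C (l i) : ℚ[X])) ⊆
            Set.range fun i => algebraMap ℚ ℂ (l i) := by
          rintro w ⟨i, hi⟩
          rw [Polynomial.map_sub, map_X, map_C] at hi
          by_contra hw
          rw [rootMultiplicity_X_sub_C, if_neg (fun h => hw ⟨i, h.symm⟩)] at hi
          exact absurd hi (by decide)
        exact (Set.finite_range _).subset this) T
  refine h.subset ?_
  intro t ht i
  obtain ⟨δ, hδ, y, hy⟩ := ht i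
  refine ⟨δ, hδ, y, ?_⟩
  rw [eval_sub, eval_X, eval_C]
  exact hy

/-- the possible cross ratios -/
def Lam (S : Finset ℕ) : Set (Fin 4 → ℚ) := {l | Function.Injective l ∧
    ∀ i, l i = 0 ∨ l i = 1 ∨ (l i ∈ Pm (Gam S) ∧ 1 - l i ∈ Pm (Gam S))}

theorem all5 (S : Finset ℕ) : (⋃ l ∈ Lam S,
    {t : ℚ | ∀ i, ∃ δ ∈ TT S 2, ∃ y, t - l i = δ * y ^ 2}).Finite := by
  have h1 : ({0, 1} ∪ {x : ℚ | x ∈ Pm (Gam S) ∧ 1 - x ∈ Pm (Gam S)}).Finite :=
    (Set.toFinite _).union (unit_two S)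
  have h2 : (Lam S).Finite := by
    refine (Set.Finite.pi' fun _ => h1).subset ?_
    rintro l ⟨-, hl⟩ i
    rcases hl i with h | h | h
    · exact Or.inl (Or.inl h)
    · exact Or.inl (Or.inr h)
    · exact Or.inr h
  exact h2.biUnion fun l hl => fin4 _ hl.1

/-- the coordinate which is `0`, `∞`, `1` at the first three points -/
noncomputable def tt {r : ℕ} (P : Fin r → ℤ × ℤ) (i j k : Fin r) (u w : ℤ) : ℚ :=
  (lf (P i) u w * dt (P j) (P k) : ℚ) / (lf (P j) u w * dt (P i) (P k))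

lemma tt_inj {r : ℕ} {P : Fin r → ℤ × ℤ} {i j k : Fin r} (hij : dt (P i) (P j) ≠ 0)
    (hik : dt (P i) (P k) ≠ 0) (hjk : dt (P j) (P k) ≠ 0) {q q' : ℤ × ℤ} (hq : Nm q) (hq' : Nm q')
    (h : lf (P j) q.1 q.2 ≠ 0) (h' : lf (P j) q'.1 q'.2 ≠ 0)
    (he : tt P i j k q.1 q.2 = tt P i j k q'.1 q'.2) : q = q' := by
  have hik' : (dt (P i) (P k) : ℚ) ≠ 0 := by exact_mod_cast hik
  have hjk' : (dt (P j) (P k) : ℚ) ≠ 0 := by exact_mod_cast hjk
  have h1 : (lf (P j) q.1 q.2 : ℚ) ≠ 0 := by exact_mod_cast h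
  have h1' : (lf (P j) q'.1 q'.2 : ℚ) ≠ 0 := by exact_mod_cast h'
  unfold tt at he
  rw [div_eq_div_iff (mul_ne_zero h1 hik') (mul_ne_zero h1' hik')] at he
  have h2 : (lf (P i) q.1 q.2 : ℚ) * lf (P j) q'.1 q'.2 = lf (P i) q'.1 q'.2 * lf (P j) q.1 q.2 := by
    apply mul_left_cancel₀ (mul_ne_zero hik' hjk')
    linear_combination he
  have h3 : lf (P i) q.1 q.2 * lf (P j) q'.1 q'.2 = lf (P i) q'.1 q'.2 * lf (P j) q.1 q.2 := by
    exact_mod_cast h2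
  apply nm_inj hq hq'
  have h4 : dt (P i) (P j) * (q.1 * q'.2 - q'.1 * q.2) = 0 := by
    unfold lf at h3
    unfold dt
    linear_combination h3
  have h5 := (mul_eq_zero.1 h4).resolve_left hij
  omega

/-- the points where one of the linear forms vanishes -/
lemma zeros {r : ℕ} {P : Fin r → ℤ × ℤ} (hP : ∀ i, ¬ ((P i).1 = 0 ∧ (P i).2 = 0)) :
    {q : ℤ × ℤ | Nm q ∧ ∃ i, lf (P i) q.1 q.2 = 0}.encard ≤ r := by
  classical
  by_cases hr : r = 0
  · subst hr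
    have : {q : ℤ × ℤ | Nm q ∧ ∃ i : Fin 0, lf (P i) q.1 q.2 = 0} = ∅ := by
      ext q
      simp only [Set.mem_ofPred_eq, Set.mem_empty_iff_false, iff_false]
      rintro ⟨-, i, -⟩
      exact i.elim0
    rw [this, Set.encard_empty]
    exact bot_le
  obtain ⟨f, hf⟩ : ∃ f : ℤ × ℤ → Fin r, ∀ q, (∃ i, lf (P i) q.1 q.2 = 0) →
      lf (P (f q)) q.1 q.2 = 0 := by
    refine ⟨fun q => if h : ∃ i, lf (P i) q.1 q.2 = 0 then h.choose else ⟨0, by omega⟩, ?_⟩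
    intro q hq
    show lf (P (if h : ∃ i, lf (P i) q.1 q.2 = 0 then h.choose else ⟨0, by omega⟩)) q.1 q.2 = 0
    rw [dif_pos hq]
    exact hq.choose_spec
  have h1 : {q : ℤ × ℤ | Nm q ∧ ∃ i, lf (P i) q.1 q.2 = 0}.encard ≤
      (Set.univ : Set (Fin r)).encard := by
    apply Set.encard_le_encard_of_injOn (f := f)
    · intro q _
      exact Set.mem_univ _
    · rintro q ⟨hq, hq1⟩ q' ⟨hq', hq1'⟩ he
      have h2 := hf q hq1
      have h3 := hf q' hq1'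
      rw [← he] at h3
      obtain ⟨a, ha⟩ : ∃ a, a = (P (f q)).1 := ⟨_, rfl⟩
      obtain ⟨b, hb⟩ : ∃ b, b = (P (f q)).2 := ⟨_, rfl⟩
      have hab := hP (f q)
      unfold lf at h2 h3
      rw [← ha, ← hb] at h2 h3 hab
      apply nm_inj hq hq'
      by_cases hb0 : b = 0
      · have ha0 : a ≠ 0 := fun h => hab ⟨h, hb0⟩
        have h4 : a * (q.1 * q'.2 - q'.1 * q.2) = 0 := by
          linear_combination q'.1 * h2 - q.1 * h3
        have h5 := (mul_eq_zero.1 h4).resolve_left ha0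
        omega
      · have h4 : b * (q.1 * q'.2 - q'.1 * q.2) = 0 := by
          linear_combination q'.2 * h2 - q.2 * h3
        have h5 := (mul_eq_zero.1 h4).resolve_left hb0
        omega
  refine h1.trans ?_
  rw [Set.encard_univ, ENat.card_eq_coe_fintype_card, Fintype.card_fin]

/-- the rational points of the curve `d * y ^ N = ∏ (b_i u - a_i w) ^ (m_i) * G(u, w)` -/
def Pts {r : ℕ} (P : Fin r → ℤ × ℤ) (g : ℤ[X]) (n : ℕ) (d : ℤ) (N : ℕ) (m : Fin r → ℕ) :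
    Set ((ℤ × ℤ) × ℚ) :=
  {Q | Nm Q.1 ∧ (d : ℚ) * Q.2 ^ N =
    (∏ i, (lf (P i) Q.1.1 Q.1.2 : ℚ) ^ m i) * (form g n Q.1.1 Q.1.2 : ℤ)}

/-- from the points of the line to the points of the curve -/
lemma count {r : ℕ} {P : Fin r → ℤ × ℤ} (hP : ∀ i, ¬ ((P i).1 = 0 ∧ (P i).2 = 0)) {g : ℤ[X]} {n : ℕ}
    {d : ℤ} (hd : d ≠ 0) {N : ℕ} (hN : 0 < N) {m : Fin r → ℕ} {B : ℕ}
    (h : {q : ℤ × ℤ | Nm q ∧ (∀ i, lf (P i) q.1 q.2 ≠ 0) ∧ ∃ y : ℚ, (d : ℚ) * y ^ N =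
      (∏ i, (lf (P i) q.1 q.2 : ℚ) ^ m i) * (form g n q.1 q.2 : ℤ)}.encard ≤ B) :
    (Pts P g n d N m).encard ≤ ((2 * (B + r) : ℕ) : ℕ∞) := by
  classical
  have hd' : (d : ℚ) ≠ 0 := by exact_mod_cast hd
  obtain ⟨X, hX⟩ : ∃ X : Set (ℤ × ℤ), X = {q : ℤ × ℤ | Nm q ∧ (∀ i, lf (P i) q.1 q.2 ≠ 0) ∧
      ∃ y : ℚ, (d : ℚ) * y ^ N = (∏ i, (lf (P i) q.1 q.2 : ℚ) ^ m i) * (form g n q.1 q.2 : ℤ)} ∪
      {q : ℤ × ℤ | Nm q ∧ ∃ i, lf (P i) q.1 q.2 = 0} := ⟨_, rfl⟩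
  have hXc : X.encard ≤ ((B + r : ℕ) : ℕ∞) := by
    rw [hX]
    refine (Set.encard_union_le _ _).trans ?_
    push_cast
    exact add_le_add h (zeros hP)
  have h1 : (Pts P g n d N m).encard ≤ (X ×ˢ (Set.univ : Set Bool)).encard := by
    apply Set.encard_le_encard_of_injOn (f := fun Q : (ℤ × ℤ) × ℚ => (Q.1, decide (0 ≤ Q.2)))
    · rintro ⟨q, y⟩ ⟨hq, hy⟩
      refine ⟨?_, Set.mem_univ _⟩
      show q ∈ X
      rw [hX]
      by_cases h0 : ∃ i, lf (P i) q.1 q.2 = 0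
      · exact Or.inr ⟨hq, h0⟩
      · push Not at h0
        exact Or.inl ⟨hq, h0, y, hy⟩
    · rintro ⟨q, y⟩ ⟨hq, hy⟩ ⟨q', y'⟩ ⟨hq', hy'⟩ he
      rw [Prod.mk.injEq] at he
      obtain ⟨e1, e2⟩ := he
      have e1 : q = q' := e1
      subst e1
      have hy : (d : ℚ) * y ^ N = (∏ i, (lf (P i) q.1 q.2 : ℚ) ^ m i) * (form g n q.1 q.2 : ℤ) := hy
      have hy' : (d : ℚ) * y' ^ N = (∏ i, (lf (P i) q.1 q.2 : ℚ) ^ m i) * (form g n q.1 q.2 : ℤ) :=
        hy'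
      have h2 : y ^ N = y' ^ N := mul_left_cancel₀ hd' (hy.trans hy'.symm)
      have h3 : |y| = |y'| := by
        have h4 : |y| ^ N = |y'| ^ N := by rw [← abs_pow, ← abs_pow, h2]
        exact (pow_left_inj₀ (abs_nonneg _) (abs_nonneg _) hN.ne').1 h4
      have e2 : (0 ≤ y) ↔ (0 ≤ y') := by
        have : decide (0 ≤ y) = decide (0 ≤ y') := e2
        simpa using this
      have h5 : y = y' := by
        by_cases h0 : 0 ≤ y
        · rw [abs_of_nonneg h0, abs_of_nonneg (e2.1 h0)] at h3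
          exact h3
        · have h0' : ¬ 0 ≤ y' := fun h => h0 (e2.2 h)
          push Not at h0 h0'
          rw [abs_of_neg h0, abs_of_neg h0'] at h3
          linarith
      rw [h5]
  refine h1.trans ?_
  rw [Set.encard_prod, Set.encard_univ, ENat.card_eq_coe_fintype_card, Fintype.card_bool]
  push_cast
  rw [mul_comm]
  have := mul_le_mul_right hXc (2 : ℕ∞)
  push_cast at this
  exact this

/-- the coordinate of the points for which the linear forms have valuations divisible by `N` -/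
def Core (S : Finset ℕ) (N r : ℕ) : Prop := ∀ hr : 3 ≤ r, ∃ T : Finset ℚ, ∀ P : Fin r → ℤ × ℤ,
  (∀ i j, i ≠ j → Sm S (dt (P i) (P j))) → ∀ u w : ℤ, (∀ i, lf (P i) u w ≠ 0) →
    (∀ i, Sel S N (lf (P i) u w : ℚ)) → tt P ⟨0, by omega⟩ ⟨1, by omega⟩ ⟨2, by omega⟩ u w ∈ T

lemma Core.mono {S : Finset ℕ} {N k r : ℕ} (hk : 3 ≤ k) (hkr : k ≤ r) (h : Core S N k) :
    Core S N r := by
  intro hr
  obtain ⟨T, hT⟩ := h hk
  refine ⟨T, fun P hP u w hL hS => ?_⟩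
  exact hT (fun i => P (Fin.castLE hkr i)) (fun i j hij => hP _ _ (fun h =>
    hij (Fin.castLE_injective hkr h))) u w (fun i => hL _) (fun i => hS _)

theorem bound_of_core {S : Finset ℕ} {N r : ℕ} (hN : 0 < N) (hr : 3 ≤ r) (hC : Core S N r) :
    ∃ B : ℕ, ∀ (P : Fin r → ℤ × ℤ) (g : ℤ[X]) (n : ℕ) (d : ℤ)
      (m : Fin r → ℕ), Apart S P g n → Sm S d → (∀ i, (m i).Coprime N) →
        (Pts P g n d N m).encard ≤ B := by
  obtain ⟨T, hT⟩ := hC hr
  refine ⟨2 * (T.card + r), fun P g n d m hA hd hm => ?_⟩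
  have hD : ∀ i j, i ≠ j → Sm S (dt (P i) (P j)) := hA.1
  have n01 : (⟨0, by omega⟩ : Fin r) ≠ ⟨1, by omega⟩ := by
    intro h
    simpa using congrArg Fin.val h
  have n02 : (⟨0, by omega⟩ : Fin r) ≠ ⟨2, by omega⟩ := by
    intro h
    simpa using congrArg Fin.val h
  have n12 : (⟨1, by omega⟩ : Fin r) ≠ ⟨2, by omega⟩ := by
    intro h
    simpa using congrArg Fin.val h
  apply count _ hd.1 hN
  · rw [← Set.encard_coe_eq_coe_finsetCard]
    apply Set.encard_le_encard_of_injOn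
      (f := fun q : ℤ × ℤ => tt P ⟨0, by omega⟩ ⟨1, by omega⟩ ⟨2, by omega⟩ q.1 q.2)
    · rintro ⟨u, w⟩ ⟨hq, hL, y, hy⟩
      exact hT P hD u w hL (fun i => lf_sel (by omega) hA hd hN hm hq.1 hy i (hL i))
    · rintro q ⟨hq, hL, -⟩ q' ⟨hq', hL', -⟩ he
      exact tt_inj (hD _ _ n01).1 (hD _ _ n02).1 (hD _ _ n12).1 hq hq' (hL _) (hL' _) he
  · rintro i ⟨h1, h2⟩
    obtain ⟨j, hj⟩ : ∃ j : Fin r, j ≠ i := by
      by_cases h : i = ⟨0, by omega⟩
      · exact ⟨⟨1, by omega⟩, by rw [h]; exact n01.symm⟩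
      · exact ⟨⟨0, by omega⟩, fun h' => h h'.symm⟩
    apply (hD i j (Ne.symm hj)).1
    unfold dt
    rw [h1, h2]
    ring

/-- **Degree two, five branch points.** -/
theorem core5 (S : Finset ℕ) : Core S 2 5 := by
  classical
  intro _
  obtain ⟨T, hT⟩ : ∃ T : Finset ℚ, (T : Set ℚ) = _ := ⟨(all5 S).toFinset, (all5 S).coe_toFinset⟩
  refine ⟨T, fun P hD u w hL hsel => ?_⟩
  have h01 := (hD 0 1 (by decide)).1
  have h02 := (hD 0 2 (by decide)).1
  have h12 := (hD 1 2 (by decide)).1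
  rw [← Finset.mem_coe, hT]
  show tt P 0 1 2 u w ∈ _
  have hdt : ∀ i j, i ≠ j → Sel S 2 (dt (P i) (P j) : ℚ) := fun i j h => Sel.of_sm (hD i j h)
  obtain ⟨c, hc⟩ : ∃ c : Fin 5 → ℚ, c = fun j =>
    (dt (P 0) (P j) * dt (P 1) (P 2) : ℚ) / (dt (P 1) (P j) * dt (P 0) (P 2)) := ⟨_, rfl⟩
  have hcj : ∀ j, c j = (dt (P 0) (P j) * dt (P 1) (P 2) : ℚ) /
    (dt (P 1) (P j) * dt (P 0) (P 2)) := fun j => by rw [hc]
  obtain ⟨σ, hσ⟩ : ∃ σ : Fin 4 → Fin 5, σ = ![0, 2, 3, 4] := ⟨_, rfl⟩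
  have hσ1 : ∀ i, σ i ≠ 1 := by rw [hσ]; decide
  have hσi : Function.Injective σ := by rw [hσ]; decide
  have q01 : (dt (P 0) (P 1) : ℚ) ≠ 0 := by exact_mod_cast h01
  have q02 : (dt (P 0) (P 2) : ℚ) ≠ 0 := by exact_mod_cast h02
  have q12 : (dt (P 1) (P 2) : ℚ) ≠ 0 := by exact_mod_cast h12
  have q1 : ∀ j, j ≠ 1 → (dt (P 1) (P j) : ℚ) ≠ 0 := fun j hj => by
    exact_mod_cast (hD 1 j hj.symm).1
  have hL1 : (lf (P 1) u w : ℚ) ≠ 0 := by exact_mod_cast hL 1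
  refine Set.mem_biUnion (x := fun i => c (σ i)) ⟨?_, ?_⟩ ?_
  · intro i j hij
    have hij : c (σ i) = c (σ j) := hij
    by_contra hne
    have hne' : σ i ≠ σ j := fun h => hne (hσi h)
    have h1 := (hD (σ i) (σ j) hne').1
    rw [hcj, hcj, div_eq_div_iff (mul_ne_zero (q1 _ (hσ1 i)) q02)
      (mul_ne_zero (q1 _ (hσ1 j)) q02)] at hij
    have h2 : (dt (P 0) (P 1) : ℚ) * dt (P (σ i)) (P (σ j)) *
        (dt (P 1) (P 2) * dt (P 0) (P 2)) = 0 := by
      have e : (dt (P 0) (P 1) : ℚ) * dt (P (σ i)) (P (σ j)) =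
          dt (P 0) (P (σ i)) * dt (P 1) (P (σ j)) - dt (P 0) (P (σ j)) * dt (P 1) (P (σ i)) := by
        unfold dt
        push_cast
        ring
      rw [e]
      linear_combination hij
    have h3 := (mul_eq_zero.1 h2).resolve_right (mul_ne_zero q12 q02)
    have h4 := (mul_eq_zero.1 h3).resolve_left q01
    exact h1 (by exact_mod_cast h4)
  · intro i
    by_cases hi0 : σ i = 0
    · left
      show c (σ i) = 0
      rw [hcj, hi0]
      unfold dt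
      rw [show (((P 0).1 * (P 0).2 - (P 0).1 * (P 0).2 : ℤ) : ℚ) = 0 by rw [sub_self, Int.cast_zero],
        zero_mul, zero_div]
    by_cases hi2 : σ i = 2
    · right; left
      show c (σ i) = 1
      rw [hcj, hi2, mul_comm, div_self (mul_ne_zero q12 q02)]
    right; right
    constructor
    · show c (σ i) ∈ _
      rw [hcj]
      exact pm_div (pm_mul (pm_int (hD 0 _ (Ne.symm hi0))) (pm_int (hD 1 2 (by decide))))
        (pm_mul (pm_int (hD 1 _ (Ne.symm (hσ1 i)))) (pm_int (hD 0 2 (by decide))))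
    · show 1 - c (σ i) ∈ _
      have e : 1 - c (σ i) = (dt (P 0) (P 1) * dt (P 2) (P (σ i)) : ℚ) /
          (dt (P 1) (P (σ i)) * dt (P 0) (P 2)) := by
        rw [hcj, eq_div_iff (mul_ne_zero (q1 _ (hσ1 i)) q02), sub_mul,
          div_mul_cancel₀ _ (mul_ne_zero (q1 _ (hσ1 i)) q02)]
        unfold dt
        push_cast
        ring
      rw [e]
      exact pm_div (pm_mul (pm_int (hD 0 1 (by decide))) (pm_int (hD 2 _ (Ne.symm hi2))))
        (pm_mul (pm_int (hD 1 _ (Ne.symm (hσ1 i)))) (pm_int (hD 0 2 (by decide))))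
  · intro i
    have hS : Sel S 2 (tt P 0 1 2 u w - c (σ i)) := by
      have e : tt P 0 1 2 u w - c (σ i) = -((dt (P 1) (P 2) * dt (P 0) (P 1) * lf (P (σ i)) u w : ℚ) /
          (lf (P 1) u w * dt (P 0) (P 2) * dt (P 1) (P (σ i)))) := by
        unfold tt
        rw [hcj, div_sub_div _ _ (mul_ne_zero hL1 q02) (mul_ne_zero (q1 _ (hσ1 i)) q02), ← neg_div,
          div_eq_div_iff (mul_ne_zero (mul_ne_zero hL1 q02) (mul_ne_zero (q1 _ (hσ1 i)) q02))
            (mul_ne_zero (mul_ne_zero hL1 q02) (q1 _ (hσ1 i)))]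
        unfold lf dt
        push_cast
        ring
      rw [e]
      exact ((((hdt 1 2 (by decide)).mul (hdt 0 1 (by decide))).mul (hsel _)).div
        (((hsel 1).mul (hdt 0 2 (by decide))).mul (hdt 1 _ (Ne.symm (hσ1 i))))).neg
    exact hS.class (by norm_num)

end Pool.Agent.W2helper7.FA
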