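import Pool.Agent.W2helper83.BT.Final
import Pool.Agent.W2helper6.BT.Fin

/-!
# Fermat quotients: `(X ^ n - U ^ n) / (X - U)` an `n`-th power up to powers of `n`
-/

set_option autoImplicit false

namespace Pool.Agent.W2helper7.FA

open Pool.Agent.W2helper83.BT
open Pool.Agent.T6.H62.PP (Psi)

/-- finiteness (Darmon and Granville) -/
theorem quo_fin {n : ℕ} (h4 : 4 ≤ n) :
    {t : ℚ | ∃ X U : ℤ, FP' n n X U ∧ t = (X : ℚ) / (U : ℚ)}.Finite := by
  have : NeZero n := ⟨by omega⟩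
  have : IsCyclotomicExtension {n} ℚ (CyclotomicField n ℚ) :=
    CyclotomicField.isCyclotomicExtension n ℚ
  exact (Pool.Agent.W2helper6.BT.fin_of (by omega) (sel' n (by omega)) (hF n h4) roots' n h4
    (CyclotomicField n ℚ) (IsCyclotomicExtension.zeta n ℚ (CyclotomicField n ℚ))
    (IsCyclotomicExtension.zeta_spec n ℚ (CyclotomicField n ℚ))).2

lemma psi_mul' (d : ℕ) (X U : ℤ) : (X - U) * Psi d X U = X ^ d - U ^ d := by
  unfold Psi
  rw [mul_comm]
  exact geom_sum₂_mul X U d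

/-- the valuations of a factor of an `n`-th power -/
lemma val_dvd {n m r D q : ℕ} (hq : q.Prime) (hm : m ≠ 0) (hr : r ≠ 0) (h : m * r = D ^ n)
    (hqr : q ∣ m → ¬ q ∣ r) : n ∣ padicValNat q m := by
  have : Fact q.Prime := ⟨hq⟩
  by_cases h1 : q ∣ m
  · have e := congrArg (padicValNat q) h
    rw [padicValNat.mul hm hr, padicValNat.eq_zero_of_not_dvd (hqr h1), add_zero,
      padicValNat.pow] at e
    rw [e]
    exact dvd_mul_right _ _
  · rw [padicValNat.eq_zero_of_not_dvd h1]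
    exact dvd_zero _

/-- the key lemma -/
theorem quo_key {n p : ℕ} (hn : n.Prime) (hp : p.Prime) (hpn : ¬ n ∣ p - 1) {X U : ℤ}
    (hXU : IsCoprime X U) (hU : U ≠ 0) {m : ℕ} (hm : m ≠ 0) (he : X ^ n - U ^ n = m)
    (hv : ∀ q : ℕ, q.Prime → q ≠ p → n ∣ padicValNat q m) : FP' n n X U := by
  have hne : X ^ n ≠ U ^ n := by
    intro h
    rw [h, sub_self] at he
    exact hm (by exact_mod_cast he.symm)
  refine ⟨hU, hne, fun q hq hqn => ⟨?_, ?_⟩⟩
  · rintro ⟨h1, h2⟩
    have := hXU.isUnit_of_dvd' h1 h2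
    exact (Nat.prime_iff_prime_int.1 hq).not_isUnit this
  have hqf : Fact q.Prime := ⟨hq⟩
  by_cases hqP : (q : ℤ) ∣ Psi n X U
  swap
  · rw [padicValInt.eq_zero_of_not_dvd hqP]
    exact dvd_zero _
  have hnot : ¬ ((X : ZMod q) = 0 ∧ (U : ZMod q) = 0) := by
    rintro ⟨h1, h2⟩
    rw [ZMod.intCast_zmod_eq_zero_iff_dvd] at h1 h2
    have := hXU.isUnit_of_dvd' h1 h2
    exact (Nat.prime_iff_prime_int.1 hq).not_isUnit this
  have hsub : ¬ (q : ℤ) ∣ X - U := by
    intro h1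
    have h2 : (X : ZMod q) = U := by
      rw [← ZMod.intCast_zmod_eq_zero_iff_dvd] at h1
      push_cast at h1
      exact sub_eq_zero.1 h1
    have h3 : ((Psi n X U : ℤ) : ZMod q) = 0 := (ZMod.intCast_zmod_eq_zero_iff_dvd _ _).2 hqP
    have h4 : ((Psi n X U : ℤ) : ZMod q) = n * (U : ZMod q) ^ (n - 1) := by
      unfold Psi
      push_cast
      rw [h2]
      rw [Finset.sum_congr rfl (g := fun _ => (U : ZMod q) ^ (n - 1))]
      · rw [Finset.sum_const, Finset.card_range, nsmul_eq_mul]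
      · intro i hi
        rw [← pow_add]
        congr 1
        have := Finset.mem_range.1 hi
        omega
    rw [h4] at h3
    rcases mul_eq_zero.1 h3 with h5 | h5
    · rw [ZMod.natCast_eq_zero_iff] at h5
      exact hqn h5
    · have h6 := (pow_eq_zero_iff (by have := hn.two_le; omega)).1 h5
      exact hnot ⟨by rw [h2, h6], h6⟩
  have hmul := psi_mul' n X U
  rw [he] at hmul
  have hX0 : X - U ≠ 0 := by
    intro h
    apply hne
    rw [sub_eq_zero.1 h]
  have hP0 : Psi n X U ≠ 0 := by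
    intro h
    rw [h, mul_zero] at hmul
    exact hm (by exact_mod_cast hmul.symm)
  have hval : padicValInt q (Psi n X U) = padicValNat q m := by
    have e := congrArg (padicValInt q) hmul
    rw [padicValInt.mul hX0 hP0, padicValInt.eq_zero_of_not_dvd hsub, zero_add] at e
    rw [e]
    rfl
  rw [hval]
  by_cases hqp : q = p
  swap
  · exact hv q hq hqp
  exfalso
  subst hqp
  -- `q ∣ X ^ n - U ^ n`, so `q ∣ X - U`
  have h1 : (X : ZMod q) ^ n = (U : ZMod q) ^ n := by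
    have h2 : ((X ^ n - U ^ n : ℤ) : ZMod q) = 0 := by
      rw [ZMod.intCast_zmod_eq_zero_iff_dvd, ← psi_mul']
      exact hqP.mul_left _
    push_cast at h2
    exact sub_eq_zero.1 h2
  have hn0 : n ≠ 0 := hn.ne_zero
  have hUz : (U : ZMod q) ≠ 0 := by
    intro h
    rw [h, zero_pow hn0] at h1
    exact hnot ⟨pow_eq_zero_iff hn0 |>.1 h1, h⟩
  have h2 : ((X : ZMod q) / U) ^ n = 1 := by
    rw [div_pow, h1, div_self (pow_ne_zero _ hUz)]
  have hz : (X : ZMod q) / U ≠ 0 := by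
    intro h
    rw [h, zero_pow hn0] at h2
    exact zero_ne_one h2
  have h3 : ((X : ZMod q) / U) ^ (q - 1) = 1 := ZMod.pow_card_sub_one_eq_one hz
  have h4 : Nat.Coprime n (q - 1) := (hn.coprime_iff_not_dvd).2 hpn
  have h5 : orderOf ((X : ZMod q) / U) ∣ Nat.gcd n (q - 1) :=
    Nat.dvd_gcd (orderOf_dvd_of_pow_eq_one h2) (orderOf_dvd_of_pow_eq_one h3)
  rw [h4.gcd_eq_one, Nat.dvd_one, orderOf_eq_one_iff, div_eq_one_iff_eq hUz] at h5
  apply hsub
  rw [← ZMod.intCast_zmod_eq_zero_iff_dvd]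
  push_cast
  rw [h5, sub_self]

end Pool.Agent.W2helper7.FA
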