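import Pool.Agent.W2helper7.FA.Unit

/-!
# Rational numbers whose valuations outside `S` are multiples of `N`
-/

set_option autoImplicit false

namespace Pool.Agent.W2helper7.FA

open Finset Pool.Agent.N449.SP

/-- the valuations outside `S` are multiples of `N` -/
def Sel (S : Finset ℕ) (N : ℕ) (q : ℚ) : Prop :=
  q ≠ 0 ∧ ∀ p : ℕ, p.Prime → p ∉ S → (N : ℤ) ∣ padicValRat p q

section

variable {S : Finset ℕ} {N : ℕ}

lemma Sel.mul {a b : ℚ} (ha : Sel S N a) (hb : Sel S N b) : Sel S N (a * b) := by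
  refine ⟨mul_ne_zero ha.1 hb.1, fun p hp hpS => ?_⟩
  have : Fact p.Prime := ⟨hp⟩
  rw [padicValRat.mul ha.1 hb.1]
  exact dvd_add (ha.2 p hp hpS) (hb.2 p hp hpS)

lemma Sel.div {a b : ℚ} (ha : Sel S N a) (hb : Sel S N b) : Sel S N (a / b) := by
  refine ⟨div_ne_zero ha.1 hb.1, fun p hp hpS => ?_⟩
  have : Fact p.Prime := ⟨hp⟩
  rw [padicValRat.div ha.1 hb.1]
  exact dvd_sub (ha.2 p hp hpS) (hb.2 p hp hpS)

lemma Sel.neg {a : ℚ} (ha : Sel S N a) : Sel S N (-a) := by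
  refine ⟨neg_ne_zero.2 ha.1, fun p hp hpS => ?_⟩
  rw [padicValRat.neg]
  exact ha.2 p hp hpS

lemma Sel.of_sm {n : ℤ} (h : Sm S n) : Sel S N (n : ℚ) := by
  refine ⟨by exact_mod_cast h.1, fun p hp hpS => ?_⟩
  rw [padicValRat.of_int, padicValInt.eq_zero_of_not_dvd (fun h' => hpS (h.2 p hp h')),
    Nat.cast_zero]
  exact dvd_zero _

/-- the product of the primes in `S` -/
def PP (S : Finset ℕ) : ℕ := ∏ p ∈ S.filter Nat.Prime, p

lemma PP_ne (S : Finset ℕ) : PP S ≠ 0 := by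
  unfold PP
  rw [prod_ne_zero_iff]
  intro p hp
  exact (mem_filter.1 hp).2.ne_zero

lemma nat_class (hN : 0 < N) {n : ℕ} (hn : n ≠ 0)
    (h : ∀ p : ℕ, p.Prime → p ∉ S → N ∣ padicValNat p n) :
    ∃ δ z : ℕ, δ ≤ PP S ^ N ∧ n = δ * z ^ N := by
  obtain ⟨δ, hδ⟩ : ∃ δ : ℕ, δ = ∏ p ∈ n.primeFactors, p ^ (n.factorization p % N) := ⟨_, rfl⟩
  obtain ⟨z, hz⟩ : ∃ z : ℕ, z = ∏ p ∈ n.primeFactors, p ^ (n.factorization p / N) := ⟨_, rfl⟩
  refine ⟨δ, z, ?_, ?_⟩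
  · apply Nat.le_of_dvd (pow_pos (Nat.pos_of_ne_zero (PP_ne S)) N)
    have h1 : δ = ∏ p ∈ n.primeFactors ∩ S, p ^ (n.factorization p % N) := by
      rw [hδ]
      symm
      apply prod_subset inter_subset_left
      intro p hp hp'
      have hpp := Nat.prime_of_mem_primeFactors hp
      have hpS : p ∉ S := fun h' => hp' (mem_inter.2 ⟨hp, h'⟩)
      have h2 := h p hpp hpS
      rw [← Nat.factorization_def n hpp] at h2
      rw [Nat.mod_eq_zero_of_dvd h2, pow_zero]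
    rw [h1]
    unfold PP
    rw [← prod_pow]
    have h3 : ∏ p ∈ n.primeFactors ∩ S, p ^ (n.factorization p % N) ∣
        ∏ p ∈ n.primeFactors ∩ S, p ^ N := by
      apply prod_dvd_prod_of_dvd
      intro p _
      exact pow_dvd_pow p (Nat.mod_lt _ hN).le
    refine h3.trans (prod_dvd_prod_of_subset _ _ _ ?_)
    intro p hp
    rw [mem_inter] at hp
    exact mem_filter.2 ⟨hp.2, Nat.prime_of_mem_primeFactors hp.1⟩
  · rw [hδ, hz, ← prod_pow, ← prod_mul_distrib]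
    conv_lhs => rw [← Nat.prod_factorization_pow_eq_self hn]
    rw [Finsupp.prod, Nat.support_factorization]
    refine prod_congr rfl fun p _ => ?_
    rw [← pow_mul, ← pow_add, mul_comm, Nat.mod_add_div]

/-- the finite set of the classes -/
noncomputable def TT (S : Finset ℕ) (N : ℕ) : Finset ℚ :=
  (Finset.Icc (-((PP S ^ N : ℕ) : ℤ)) ((PP S ^ N : ℕ) : ℤ)).image (fun q : ℤ => (q : ℚ))

lemma Sel.class (hN : 0 < N) {q : ℚ} (h : Sel S N q) :
    ∃ δ ∈ TT S N, ∃ y : ℚ, q = δ * y ^ N := by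
  obtain ⟨n, hn⟩ : ∃ n : ℤ, n = q.num * (q.den : ℤ) ^ (N - 1) := ⟨_, rfl⟩
  have hden : (q.den : ℚ) ≠ 0 := by exact_mod_cast q.den_ne_zero
  have hqn : (n : ℚ) = q * (q.den : ℚ) ^ N := by
    rw [hn]
    push_cast
    have h1 : (q.den : ℚ) ^ N = q.den * (q.den : ℚ) ^ (N - 1) := by
      rw [← pow_succ']
      congr 1
      omega
    rw [h1, ← mul_assoc, Rat.mul_den_eq_num]
  have hn0 : n ≠ 0 := by
    intro h0
    rw [h0, Int.cast_zero] at hqn
    exact mul_ne_zero h.1 (pow_ne_zero _ hden) hqn.symm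
  obtain ⟨δ, z, hδ, hz⟩ := nat_class hN (Int.natAbs_ne_zero.2 hn0) (S := S) (fun p hp hpS => by
    have : Fact p.Prime := ⟨hp⟩
    have h1 : ((padicValInt p n : ℕ) : ℤ) = padicValRat p q + N * padicValRat p (q.den : ℚ) := by
      rw [← padicValRat.of_int, hqn, padicValRat.mul h.1 (pow_ne_zero _ hden), padicValRat.pow]
    have h2 : (N : ℤ) ∣ ((padicValInt p n : ℕ) : ℤ) := by
      rw [h1]
      exact dvd_add (h.2 p hp hpS) (dvd_mul_right _ _)
    exact_mod_cast h2)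
  have key : ∀ ε : ℤ, (ε = 1 ∨ ε = -1) → n = ε * n.natAbs →
      ∃ δ ∈ TT S N, ∃ y : ℚ, q = δ * y ^ N := by
    intro ε hε hnε
    refine ⟨((ε * δ : ℤ) : ℚ), ?_, (z : ℚ) / q.den, ?_⟩
    · unfold TT
      rw [mem_image]
      refine ⟨ε * δ, ?_, rfl⟩
      rw [Finset.mem_Icc]
      have h1 : (δ : ℤ) ≤ ((PP S ^ N : ℕ) : ℤ) := by exact_mod_cast hδ
      have h2 : (0 : ℤ) ≤ δ := Int.natCast_nonneg δ
      rcases hε with rfl | rfl <;> constructor <;> linarith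
    · have h1 : (n : ℚ) = ((ε * δ : ℤ) : ℚ) * (z : ℚ) ^ N := by
        have h2 : n = ε * δ * (z : ℤ) ^ N := by
          rw [hnε, hz]
          push_cast
          ring
        exact_mod_cast congrArg (fun z : ℤ => (z : ℚ)) h2
      rw [hqn] at h1
      rw [div_pow, ← mul_div_assoc, ← h1, mul_div_assoc, div_self (pow_ne_zero _ hden), mul_one]
  rcases Int.natAbs_eq n with h1 | h1
  · exact key 1 (Or.inl rfl) (by rw [one_mul]; exact h1)
  · exact key (-1) (Or.inr rfl) (by rw [neg_one_mul]; exact h1)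

lemma pm_mul {Γ : Subgroup ℚˣ} {a b : ℚ} (ha : a ∈ Pm Γ) (hb : b ∈ Pm Γ) : a * b ∈ Pm Γ := by
  have h1 : (1 : ℚ) ∈ Pm Γ := ⟨1, one_mem _, Or.inl (by simp)⟩
  have := pm_div ha (pm_div h1 hb)
  rwa [div_div_eq_mul_div, div_one] at this

lemma pm_neg {Γ : Subgroup ℚˣ} {a : ℚ} (ha : a ∈ Pm Γ) : -a ∈ Pm Γ := Pm.neg Γ a ha

end

end Pool.Agent.W2helper7.FA
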